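import Mathlib

/-!
# Blocks, defect groups, Brauer correspondents and perfect isometries (character-theoretic)

Throughout `p` is a prime and `O` is a valuation subring of `ℂ` whose maximal ideal `O.nonunits`
contains `p` (so `(ℂ, O, O / O.nonunits)` plays the role of a `p`-modular system; every algebraic
integer lies in `O`).
-/

open scoped BigOperators Classical

noncomputable section

namespace Pool.Agent.H254R3.IN

/-- `χ` is the character of an irreducible finite-dimensional complex representation of `G`. -/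
def IsIrr {G : Type} [Group G] (χ : G → ℂ) : Prop :=
  ∃ (V : Type) (_ : AddCommGroup V) (_ : Module ℂ V) (_ : FiniteDimensional ℂ V)
    (ρ : Representation ℂ G V), ρ.IsIrreducible ∧ χ = ρ.character

variable {G : Type} [Group G]

/-- The value `ω_χ(K⁺) = |K| χ(x) / χ(1)` of the central character of `χ` at the class sum of the
conjugacy class `K` of `x`. -/
def omega (χ : G → ℂ) (x : G) : ℂ := (Nat.card {y : G // IsConj x y} : ℂ) * χ x / χ 1

/-- `B` is (the set of irreducible characters of) a `p`-block of `G`: all irreducible characters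
whose central character is congruent to that of a given one modulo the maximal ideal of `O`. -/
def IsBlock (O : ValuationSubring ℂ) (B : Set (G → ℂ)) : Prop :=
  ∃ χ₀ : G → ℂ, IsIrr χ₀ ∧ B = {χ | IsIrr χ ∧ ∀ x : G, omega χ x - omega χ₀ x ∈ O.nonunits}

/-- The coefficient `a_B(x) = |G|⁻¹ ∑_{χ ∈ B} χ(1) χ(x⁻¹)` of the block idempotent of `B` at `x`. -/
def blockCoeff (B : Set (G → ℂ)) (x : G) : ℂ :=
  (Nat.card G : ℂ)⁻¹ * ∑ᶠ χ ∈ B, χ 1 * χ x⁻¹

/-- `D` is a defect group of the block `B`: there is a defect class of `B`, i.e. a class `K` (the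
class of `x`) with `λ_B(K⁺) ≠ 0` and `a_B(K) ≠ 0` in the residue field of `O`, such that `D` is a
Sylow `p`-subgroup of `C_G(x)`. -/
def IsDefectGroup (p : ℕ) (O : ValuationSubring ℂ) (B : Set (G → ℂ)) (D : Subgroup G) : Prop :=
  ∃ x : G, (∃ P : Sylow p (Subgroup.centralizer ({x} : Set G)),
      D = (P : Subgroup (Subgroup.centralizer ({x} : Set G))).map
        (Subgroup.centralizer ({x} : Set G)).subtype) ∧
    (∀ χ ∈ B, omega χ x ∉ O.nonunits) ∧ blockCoeff B x ∉ O.nonunits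

/-- `b` is the Brauer correspondent in `N_G(D)` of the block `B` of `G` with defect group `D`:
`b` is a block of `N_G(D)` with defect group `D`, and `b^G = B`, i.e.
`λ_B(K⁺) = λ_b((K ∩ N_G(D))⁺)` for every conjugacy class `K` of `G`. -/
def IsBrauerCorrespondent (p : ℕ) (O : ValuationSubring ℂ) (D : Subgroup G) (B : Set (G → ℂ))
    (b : Set (Subgroup.normalizer (D : Set G) → ℂ)) : Prop :=
  IsBlock O b ∧ IsDefectGroup p O b (D.subgroupOf (Subgroup.normalizer (D : Set G))) ∧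
    ∀ χ ∈ B, ∀ θ ∈ b, ∀ x : G,
      omega χ x - ∑ᶠ y : {y : Subgroup.normalizer (D : Set G) // IsConj x (y : G)},
        θ y / θ 1 ∈ O.nonunits

/-- The inner product `⟨f, h⟩ = |G|⁻¹ ∑ f(g) h(g⁻¹)` of class functions. -/
def ip (f h : G → ℂ) : ℂ := (Nat.card G : ℂ)⁻¹ * ∑ᶠ g : G, f g * h g⁻¹

/-- The group `ℤ Irr(B)` of virtual characters in `B`. -/
def ZIrr (B : Set (G → ℂ)) : AddSubgroup (G → ℂ) := AddSubgroup.closure B

/-- Broué's virtual character `μ(g,h) = ∑_{χ ∈ B} χ(g) (I χ)(h⁻¹)` of `G × H` attached to an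
additive map `I : ℤ Irr(B) → ℤ Irr(b)`. -/
def mu {H : Type} [Group H] {B : Set (G → ℂ)} {b : Set (H → ℂ)} (I : ZIrr B ≃+ ZIrr b)
    (g : G) (h : H) : ℂ :=
  ∑ᶠ χ : B, (χ : G → ℂ) g * (I ⟨χ, AddSubgroup.subset_closure χ.2⟩ : H → ℂ) h⁻¹

/-- `I : ℤ Irr(B) → ℤ Irr(b)` is a perfect isometry (Broué). -/
structure IsPerfectIsometry (p : ℕ) (O : ValuationSubring ℂ) {H : Type} [Group H]
    {B : Set (G → ℂ)} {b : Set (H → ℂ)} (I : ZIrr B ≃+ ZIrr b) : Prop where
  /-- `I` is an isometry -/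
  isometry : ∀ f h : ZIrr B, ip (I f : H → ℂ) (I h : H → ℂ) = ip (f : G → ℂ) (h : G → ℂ)
  /-- `μ(g,h)/|C_G(g)|` is `p`-integral -/
  integral_left : ∀ (g : G) (h : H),
    mu I g h / (Nat.card (Subgroup.centralizer ({g} : Set G)) : ℂ) ∈ O
  /-- `μ(g,h)/|C_H(h)|` is `p`-integral -/
  integral_right : ∀ (g : G) (h : H),
    mu I g h / (Nat.card (Subgroup.centralizer ({h} : Set H)) : ℂ) ∈ O
  /-- separation: `μ(g,h) ≠ 0` only if `g`, `h` are both `p`-regular or both `p`-singular -/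
  separation : ∀ (g : G) (h : H), mu I g h ≠ 0 → (p ∣ orderOf g ↔ p ∣ orderOf h)

/-- The `p'`-part of a natural number. -/
def pPrimePart (p n : ℕ) : ℕ := n / p ^ n.factorization p

/-- `c_B(m)`: the number of `θ ∈ B` with `θ(1)_{p'} ≡ m` or `θ(1)_{p'} ≡ -m` modulo `p`. -/
def degCount (p : ℕ) (B : Set (G → ℂ)) (m : ℤ) : ℕ :=
  Nat.card {θ : G → ℂ // θ ∈ B ∧ ∃ n : ℕ, (n : ℂ) = θ 1 ∧
    ((pPrimePart p n : ℤ) ≡ m [ZMOD p] ∨ (pPrimePart p n : ℤ) ≡ -m [ZMOD p])}

end Pool.Agent.H254R3.IN
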