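import Mathlib

open scoped BigOperators Classical

noncomputable section

namespace Pool.Agent.H254R3.IN

/-- uniform (classical) decidability of conjugacy -/
instance (priority := 100000) decConj {G : Type} [Group G] (a b : G) : Decidable (IsConj a b) :=
  Classical.propDecidable _

/-- uniform finiteness instance on conjugacy classes -/
instance (priority := 100000) fintypeCC {G : Type} [Group G] [Fintype G] :
    Fintype (ConjClasses G) := Fintype.ofFinite _

variable (O : ValuationSubring ℂ)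

/-- residue field -/
abbrev RF : Type := IsLocalRing.ResidueField O

/-- reduction modulo the maximal ideal, extended by zero -/
def red (x : ℂ) : RF O := if h : x ∈ O then IsLocalRing.residue O ⟨x, h⟩ else 0

variable {O}

lemma red_of_mem {x : ℂ} (h : x ∈ O) : red O x = IsLocalRing.residue O ⟨x, h⟩ := by
  rw [red, dif_pos h]

lemma red_zero : red O 0 = 0 := by
  rw [red_of_mem O.zero_mem]
  exact map_zero _

lemma red_one : red O 1 = 1 := by
  rw [red_of_mem O.one_mem]
  exact map_one _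

lemma red_add {x y : ℂ} (hx : x ∈ O) (hy : y ∈ O) : red O (x + y) = red O x + red O y := by
  rw [red_of_mem hx, red_of_mem hy, red_of_mem (O.add_mem _ _ hx hy), ← map_add]
  rfl

lemma red_mul {x y : ℂ} (hx : x ∈ O) (hy : y ∈ O) : red O (x * y) = red O x * red O y := by
  rw [red_of_mem hx, red_of_mem hy, red_of_mem (O.mul_mem _ _ hx hy), ← map_mul]
  rfl

lemma red_neg {x : ℂ} (hx : x ∈ O) : red O (-x) = - red O x := by
  rw [red_of_mem hx, red_of_mem (O.neg_mem _ hx), ← map_neg]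
  rfl

lemma sub_mem' {x y : ℂ} (hx : x ∈ O) (hy : y ∈ O) : x - y ∈ O := by
  rw [sub_eq_add_neg]
  exact O.add_mem _ _ hx (O.neg_mem _ hy)

lemma red_sub {x y : ℂ} (hx : x ∈ O) (hy : y ∈ O) : red O (x - y) = red O x - red O y := by
  rw [sub_eq_add_neg, red_add hx (O.neg_mem _ hy), red_neg hy, ← sub_eq_add_neg]

lemma sum_mem' {ι : Type*} (s : Finset ι) (f : ι → ℂ) (h : ∀ i ∈ s, f i ∈ O) :
    ∑ i ∈ s, f i ∈ O := sum_mem h

lemma red_sum {ι : Type*} (s : Finset ι) (f : ι → ℂ) (h : ∀ i ∈ s, f i ∈ O) :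
    red O (∑ i ∈ s, f i) = ∑ i ∈ s, red O (f i) := by
  induction s using Finset.induction_on with
  | empty => simpa using red_zero
  | insert a s ha ih =>
    have h1 : ∀ i ∈ s, f i ∈ O := fun i hi => h i (Finset.mem_insert_of_mem hi)
    rw [Finset.sum_insert ha, Finset.sum_insert ha,
      red_add (h a (Finset.mem_insert_self a s)) (sum_mem' s f h1), ih h1]

lemma natCast_mem' (n : ℕ) : (n : ℂ) ∈ O := natCast_mem O n

lemma intCast_mem' (n : ℤ) : (n : ℂ) ∈ O := intCast_mem O n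

lemma red_natCast (n : ℕ) : red O (n : ℂ) = n := by
  rw [red_of_mem (natCast_mem' n), ← map_natCast (IsLocalRing.residue O) n]
  rfl

lemma red_intCast (n : ℤ) : red O (n : ℂ) = n := by
  rw [red_of_mem (intCast_mem' n), ← map_intCast (IsLocalRing.residue O) n]
  rfl

lemma nonunits_mem {x : ℂ} (h : x ∈ O.nonunits) : x ∈ O := ValuationSubring.nonunits_subset h

lemma red_eq_zero_iff {x : ℂ} (hx : x ∈ O) : red O x = 0 ↔ x ∈ O.nonunits := by
  rw [red_of_mem hx, IsLocalRing.residue_eq_zero_iff, ← ValuationSubring.coe_mem_nonunits_iff]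

lemma red_eq_zero {x : ℂ} (hx : x ∈ O.nonunits) : red O x = 0 :=
  (red_eq_zero_iff (nonunits_mem hx)).mpr hx

lemma red_eq_iff {x y : ℂ} (hx : x ∈ O) (hy : y ∈ O) :
    red O x = red O y ↔ x - y ∈ O.nonunits := by
  rw [← red_eq_zero_iff (sub_mem' hx hy), red_sub hx hy, sub_eq_zero]

lemma red_congr {x y : ℂ} (hx : x ∈ O) (h : x - y ∈ O.nonunits) : y ∈ O ∧ red O x = red O y := by
  have hy : y ∈ O := by
    have := sub_mem' hx (nonunits_mem h)
    simpa using this
  exact ⟨hy, (red_eq_iff hx hy).mpr h⟩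

lemma inv_mem_of_red_ne {x : ℂ} (h : red O x ≠ 0) : x ∈ O ∧ x⁻¹ ∈ O ∧ x ≠ 0 := by
  have hx : x ∈ O := by
    by_contra hx
    exact h (by rw [red, dif_neg hx])
  have h1 : x ∉ O.nonunits := fun h2 => h (red_eq_zero h2)
  rw [ValuationSubring.mem_nonunits_iff_or] at h1
  push Not at h1
  exact ⟨hx, h1.2, h1.1⟩

lemma red_inv {x : ℂ} (h : red O x ≠ 0) : red O x⁻¹ = (red O x)⁻¹ := by
  obtain ⟨hx, hx', h0⟩ := inv_mem_of_red_ne h
  have h1 : red O x * red O x⁻¹ = 1 := by
    rw [← red_mul hx hx', mul_inv_cancel₀ h0, red_one]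
  exact (eq_inv_of_mul_eq_one_right h1)

lemma red_ne_zero_of_mul {x y : ℂ} (hx : x ∈ O) (hy : y ∈ O) (h : x * y = 1) : red O x ≠ 0 := by
  intro h0
  have := red_mul hx hy
  rw [h, red_one, h0, zero_mul] at this
  exact one_ne_zero this

/-- algebraic integers lie in `O` -/
lemma mem_of_isIntegral {x : ℂ} (h : IsIntegral ℤ x) : x ∈ O := by
  have h1 : IsIntegral O x := by
    obtain ⟨f, hf, hx⟩ := h
    refine ⟨f.map (algebraMap ℤ O), hf.map _, ?_⟩
    rw [Polynomial.eval₂_map]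
    have h2 : (algebraMap O ℂ).comp (algebraMap ℤ O) = algebraMap ℤ ℂ := RingHom.ext_int _ _
    rw [h2]
    exact hx
  obtain ⟨y, hy⟩ := (IsIntegrallyClosed.isIntegral_iff (R := O) (K := ℂ)).mp h1
  rw [← hy]
  exact y.2

lemma mem_of_isIntegral' {x : ℂ} (h1 : IsIntegral O x) : x ∈ O := by
  obtain ⟨y, hy⟩ := (IsIntegrallyClosed.isIntegral_iff (R := O) (K := ℂ)).mp h1
  rw [← hy]
  exact y.2

section charp

variable {p : ℕ} [Fact p.Prime] (hp : (p : ℂ) ∈ O.nonunits)

include hp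

lemma charP_RF : CharP (RF O) p := by
  have h0 : (p : RF O) = 0 := by
    rw [← red_natCast, red_eq_zero hp]
  exact (CharP.charP_iff_prime_eq_zero (Fact.out : p.Prime)).mpr h0

lemma red_nat_eq_zero_iff (n : ℕ) : red O (n : ℂ) = 0 ↔ p ∣ n := by
  have := charP_RF hp
  rw [red_natCast]
  exact CharP.cast_eq_zero_iff (RF O) p n

lemma red_nat_modEq {m n : ℕ} (h : m ≡ n [MOD p]) : red O (m : ℂ) = red O (n : ℂ) := by
  have := charP_RF hp
  rw [red_natCast, red_natCast]
  exact (CharP.natCast_eq_natCast (RF O) p).mpr h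

lemma nat_inv_mem {n : ℕ} (h : ¬ p ∣ n) : (n : ℂ)⁻¹ ∈ O :=
  (inv_mem_of_red_ne (fun h0 => h ((red_nat_eq_zero_iff hp n).mp h0))).2.1

end charp

end Pool.Agent.H254R3.IN
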