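import Pool.Agent.Helper884.IC.Compl
import Pool.Agent.H254R3.IN.Red
import Pool.Agent.H254R3.IN.Defs

open scoped BigOperators Classical MonoidAlgebra
open Representation Pool.Agent.Helper884

noncomputable section

namespace Pool.Agent.H254R3.IN

variable {G : Type} [Group G]

/-- Schur: commuting operators are scalars -/
lemma schur {V : Type} [AddCommGroup V] [Module ℂ V] [FiniteDimensional ℂ V]
    (rho : Representation ℂ G V) (hirr : rho.IsIrreducible) (T : V →ₗ[ℂ] V)
    (hcomm : ∀ (h : G) (v : V), T (rho h v) = rho h (T v)) : ∃ c : ℂ, T = c • LinearMap.id := by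
  let T' : IntertwiningMap rho rho := T.intertwiningMap_of_isIntertwiningMap rho rho hcomm
  obtain ⟨c, hc⟩ := (Representation.IsIrreducible.algebraMap_intertwiningMap_bijective_of_isAlgClosed
    (ρ := rho)).2 T'
  refine ⟨c, ?_⟩
  ext v
  have := congrArg (fun S : IntertwiningMap rho rho => S v) hc
  have h2 : T' v = T v := rfl
  rw [← h2]
  exact this.symm

lemma irr_nontrivial {V : Type} [AddCommGroup V] [Module ℂ V] [FiniteDimensional ℂ V]
    (rho : Representation ℂ G V) (hirr : rho.IsIrreducible) : Nontrivial V := by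
  by_contra hn
  rw [not_nontrivial_iff_subsingleton] at hn
  have : Subsingleton (Subrepresentation rho) := by
    constructor
    intro a b
    ext x
    have : x = 0 := Subsingleton.elim _ _
    subst this
    simp
  have h5 := hirr.toNontrivial
  exact not_subsingleton (Subrepresentation rho) this

lemma IsIrr.conj {χ : G → ℂ} (h : IsIrr χ) (g y : G) : χ (y * g * y⁻¹) = χ g := by
  obtain ⟨V, _, _, _, ρ, hr, rfl⟩ := h
  exact ρ.char_conj g y

lemma IsIrr.isConj {χ : G → ℂ} (h : IsIrr χ) {x y : G} (hxy : IsConj x y) : χ x = χ y := by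
  obtain ⟨c, rfl⟩ := isConj_iff.mp hxy
  exact (h.conj x c).symm

lemma IsIrr.deg {χ : G → ℂ} (h : IsIrr χ) : ∃ n : ℕ, 0 < n ∧ (n : ℂ) = χ 1 := by
  obtain ⟨V, _, _, _, ρ, hr, rfl⟩ := h
  haveI := irr_nontrivial ρ hr
  exact ⟨Module.finrank ℂ V, Module.finrank_pos, (ρ.char_one).symm⟩

lemma IsIrr.one_ne {χ : G → ℂ} (h : IsIrr χ) : χ 1 ≠ 0 := by
  obtain ⟨n, hn, h1⟩ := h.deg
  rw [← h1]
  exact_mod_cast hn.ne'

/-- character values are algebraic integers -/
lemma IsIrr.isIntegral [Finite G] {χ : G → ℂ} (h : IsIrr χ) (g : G) : IsIntegral ℤ (χ g) := by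
  obtain ⟨V, _, _, _, ρ, hr, rfl⟩ := h
  unfold Representation.character
  rw [Module.End.trace_eq_sum_roots_charpoly_of_splits (IsAlgClosed.splits _)]
  have key : ∀ μ ∈ (LinearMap.charpoly (ρ g)).roots, IsIntegral ℤ μ := by
    intro μ hμ
    have h1 : (LinearMap.charpoly (ρ g)).IsRoot μ := (Polynomial.mem_roots'.mp hμ).2
    have h2 := (Module.End.hasEigenvalue_iff_isRoot_charpoly (ρ g) μ).mpr h1
    obtain ⟨v, hv⟩ := h2.exists_hasEigenvector
    have h3 : ∀ n : ℕ, ((ρ g) ^ n) v = μ ^ n • v := fun n => by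
      induction n with
      | zero => simp
      | succ n ih =>
        rw [pow_succ', Module.End.mul_apply, ih, map_smul, hv.apply_eq_smul, smul_smul, pow_succ]
    have h4 := h3 (orderOf g)
    rw [← map_pow, pow_orderOf_eq_one, map_one, Module.End.one_apply] at h4
    have h5 : μ ^ orderOf g = 1 := by
      have h6 : (μ ^ orderOf g - 1) • v = 0 := by
        rw [sub_smul, one_smul, ← h4, sub_self]
      rcases smul_eq_zero.mp h6 with h7 | h7
      · exact sub_eq_zero.mp h7
      · exact absurd h7 hv.2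
    refine ⟨Polynomial.X ^ orderOf g - 1, Polynomial.monic_X_pow_sub_C 1 (orderOf_pos g).ne' , ?_⟩
    simp [h5]
  generalize (LinearMap.charpoly (ρ g)).roots = s at key
  induction s using Multiset.induction_on with
  | empty => simpa using isIntegral_zero
  | cons a s ih =>
    rw [Multiset.sum_cons]
    exact (key a (Multiset.mem_cons_self a s)).add
      (ih (fun μ hμ => key μ (Multiset.mem_cons_of_mem hμ)))

lemma IsIrr.val_mem [Finite G] {χ : G → ℂ} (h : IsIrr χ) (O : ValuationSubring ℂ) (g : G) :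
    χ g ∈ O := mem_of_isIntegral (h.isIntegral g)

/-- class functions act by scalars -/
lemma class_scalar [Fintype G] {V : Type} [AddCommGroup V] [Module ℂ V] [FiniteDimensional ℂ V]
    (ρ : Representation ℂ G V) (hr : ρ.IsIrreducible) (f : G → ℂ)
    (hf : ∀ g y, f (y * g * y⁻¹) = f g) :
    ∑ g, f g • ρ g = ((∑ g, f g * ρ.character g) / ρ.character 1) • (LinearMap.id : V →ₗ[ℂ] V) := by
  obtain ⟨c, hc⟩ := schur ρ hr (∑ g, f g • ρ g) (by
    intro h v
    simp only [LinearMap.sum_apply, LinearMap.smul_apply, map_sum, map_smul]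
    refine Fintype.sum_equiv (MulAut.conj h⁻¹).toEquiv _ _ ?_
    intro g
    have e1 : (MulAut.conj h⁻¹).toEquiv g = h⁻¹ * g * h := by simp
    rw [e1]
    have h1 : f (h⁻¹ * g * h) = f g := by
      have := hf g h⁻¹
      simpa using this
    rw [h1, ← Module.End.mul_apply, ← Module.End.mul_apply, ← map_mul, ← map_mul]
    congr 3
    group)
  have hχ : IsIrr ρ.character := ⟨V, _, _, inferInstance, ρ, hr, rfl⟩
  have htr : LinearMap.trace ℂ V (∑ g, f g • ρ g) = ∑ g, f g * ρ.character g := by
    simp [Representation.character]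
  rw [hc, map_smul, LinearMap.trace_id, smul_eq_mul, ← ρ.char_one] at htr
  rw [hc, ← htr, mul_div_cancel_right₀ _ hχ.one_ne]

lemma scalar_inj {V : Type} [AddCommGroup V] [Module ℂ V] [Nontrivial V] {a b : ℂ}
    (h : a • (LinearMap.id : V →ₗ[ℂ] V) = b • LinearMap.id) : a = b := by
  obtain ⟨v, hv⟩ := exists_ne (0 : V)
  have h1 := congrArg (fun S : V →ₗ[ℂ] V => S v) h
  simp only [LinearMap.smul_apply, LinearMap.id_apply] at h1
  exact smul_left_injective ℂ hv h1

/-- the size of the class times the order of the centraliser -/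
lemma card_class_mul [Finite G] (x : G) :
    Nat.card {y : G // IsConj x y} * Nat.card (Subgroup.centralizer ({x} : Set G)) =
      Nat.card G := by
  haveI := Fintype.ofFinite G
  rw [Subgroup.nat_card_centralizer_nat_card_stabilizer]
  have h1 := MulAction.card_orbit_mul_card_stabilizer_eq_card_group (ConjAct G) x
  have h2 : Nat.card {y : G // IsConj x y} = Nat.card (MulAction.orbit (ConjAct G) x) := by
    refine Nat.card_congr (Equiv.subtypeEquivRight fun y => ?_)
    rw [ConjAct.mem_orbit_conjAct, isConj_comm]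
  rw [h2]
  simp only [Nat.card_eq_fintype_card]
  rw [h1]
  rfl

lemma card_centralizer_pos [Finite G] (x : G) :
    0 < Nat.card (Subgroup.centralizer ({x} : Set G)) := Nat.card_pos

lemma card_class_pos [Finite G] (x : G) : 0 < Nat.card {y : G // IsConj x y} := by
  haveI : Nonempty {y : G // IsConj x y} := ⟨⟨x, IsConj.refl x⟩⟩
  exact Nat.card_pos

lemma card_class_congr {x y : G} (h : IsConj x y) :
    Nat.card {z : G // IsConj x z} = Nat.card {z : G // IsConj y z} := by
  refine Nat.card_congr (Equiv.subtypeEquivRight fun z => ?_)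
  exact ⟨fun h1 => h.symm.trans h1, fun h1 => h.trans h1⟩

lemma card_centralizer_congr [Finite G] {x y : G} (h : IsConj x y) :
    Nat.card (Subgroup.centralizer ({x} : Set G)) =
      Nat.card (Subgroup.centralizer ({y} : Set G)) := by
  have h1 := card_class_mul x
  have h2 := card_class_mul y
  rw [card_class_congr h] at h1
  exact Nat.eq_of_mul_eq_mul_left (card_class_pos y) (h1.trans h2.symm)

lemma IsIrr.omega_congr {χ : G → ℂ} (h : IsIrr χ) {x y : G} (hxy : IsConj x y) :
    omega χ x = omega χ y := by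
  unfold omega
  rw [card_class_congr hxy, h.isConj hxy]

/-- integrality of a scalar by which an integral combination acts -/
lemma integral_of_scalar [Finite G] {V : Type} [AddCommGroup V] [Module ℂ V] [Nontrivial V]
    (ρ : Representation ℂ G V) (s : Finset G) (c : ℂ)
    (h : ∑ y ∈ s, ρ y = c • (LinearMap.id : V →ₗ[ℂ] V)) : IsIntegral ℤ c := by
  haveI := Fintype.ofFinite G
  let φ : MonoidAlgebra ℤ G →ₐ[ℤ] Module.End ℂ V := MonoidAlgebra.lift ℤ (Module.End ℂ V) G ρ
  let k : MonoidAlgebra ℤ G := ∑ y ∈ s, MonoidAlgebra.of ℤ G y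
  have hk : IsIntegral ℤ k := IsIntegral.of_finite ℤ k
  have h1 : IsIntegral ℤ (φ k) := hk.map φ
  have h2 : φ k = ∑ y ∈ s, ρ y := by
    simp only [φ, k, map_sum]
    refine Finset.sum_congr rfl fun y _ => ?_
    simp
  rw [h2, h] at h1
  have h3 : (c • (LinearMap.id : V →ₗ[ℂ] V)) = algebraMap ℂ (Module.End ℂ V) c := rfl
  rw [h3] at h1
  exact (isIntegral_algebraMap_iff (FaithfulSMul.algebraMap_injective ℂ (Module.End ℂ V))).mp h1

/-- class sum acts by `omega` -/
lemma class_sum_scalar [Fintype G] {V : Type} [AddCommGroup V] [Module ℂ V] [FiniteDimensional ℂ V]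
    (ρ : Representation ℂ G V) (hr : ρ.IsIrreducible) (x : G) :
    ∑ y ∈ Finset.univ.filter (fun y : G => IsConj x y), ρ y
      = omega ρ.character x • (LinearMap.id : V →ₗ[ℂ] V) := by
  have h1 := class_scalar ρ hr (fun y => if IsConj x y then 1 else 0) (by
    intro g y
    have : IsConj x (y * g * y⁻¹) ↔ IsConj x g := by
      have h2 : IsConj g (y * g * y⁻¹) := isConj_iff.mpr ⟨y, rfl⟩
      exact ⟨fun h => h.trans h2.symm, fun h => h.trans h2⟩
    simp only [this])
  have hχ : IsIrr ρ.character := ⟨V, _, _, inferInstance, ρ, hr, rfl⟩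
  simp only [ite_smul, one_smul, zero_smul, ite_mul, one_mul, zero_mul] at h1
  rw [← Finset.sum_filter, ← Finset.sum_filter] at h1
  rw [h1]
  congr 1
  unfold omega
  congr 1
  rw [Finset.sum_congr rfl (g := fun _ => ρ.character x)
    (fun y hy => (hχ.isConj (Finset.mem_filter.mp hy).2).symm), Finset.sum_const, nsmul_eq_mul]
  congr 2
  rw [Nat.card_eq_fintype_card, Fintype.card_subtype]

lemma IsIrr.omega_isIntegral [Finite G] {χ : G → ℂ} (h : IsIrr χ) (x : G) :
    IsIntegral ℤ (omega χ x) := by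
  haveI := Fintype.ofFinite G
  obtain ⟨V, _, _, _, ρ, hr, rfl⟩ := h
  haveI := irr_nontrivial ρ hr
  exact integral_of_scalar ρ _ _ (class_sum_scalar ρ hr x)

lemma IsIrr.omega_mem [Finite G] {χ : G → ℂ} (h : IsIrr χ) (O : ValuationSubring ℂ) (x : G) :
    omega χ x ∈ O := mem_of_isIntegral (h.omega_isIntegral x)

/-- `χ(x) = ω_χ(x) χ(1) |C_G(x)| / |G|` -/
lemma IsIrr.val_eq [Finite G] {χ : G → ℂ} (h : IsIrr χ) (x : G) :
    χ x = omega χ x * χ 1 * Nat.card (Subgroup.centralizer ({x} : Set G)) / Nat.card G := by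
  have h1 := card_class_mul x
  have h2 : (Nat.card G : ℂ) ≠ 0 := by exact_mod_cast Nat.card_pos.ne'
  have h3 : ((Nat.card {y : G // IsConj x y} : ℕ) : ℂ) ≠ 0 := by
    exact_mod_cast (card_class_pos x).ne'
  have h4 := h.one_ne
  have h5 : (Nat.card G : ℂ) = (Nat.card {y : G // IsConj x y} : ℂ) *
    Nat.card (Subgroup.centralizer ({x} : Set G)) := by exact_mod_cast h1.symm
  have h6 : (Nat.card (Subgroup.centralizer ({x} : Set G)) : ℂ) ≠ 0 := by
    exact_mod_cast (card_centralizer_pos x).ne'
  unfold omega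
  rw [h5]
  field_simp

end Pool.Agent.H254R3.IN
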