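import Pool.Agent.H254R3.IN.Core

set_option linter.style.haveILetI false
set_option linter.unusedSectionVars false

open scoped BigOperators Classical
open Pool.Agent.Helper884 Representation

noncomputable section

namespace Pool.Agent.H254R3.IN

variable {G : Type} [Group G] [Fintype G]

variable {O : ValuationSubring ℂ} {p : ℕ} [hp : Fact p.Prime] {D : Subgroup G}

/-- normaliser -/
abbrev NN (D : Subgroup G) : Subgroup G := Subgroup.normalizer (D : Set G)

/-- `D` as a subgroup of its normaliser -/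
abbrev DD (D : Subgroup G) : Subgroup (NN D) := D.subgroupOf (NN D)

lemma le_NN (D : Subgroup G) : D ≤ NN D := Subgroup.le_normalizer

lemma card_DD (D : Subgroup G) : Nat.card (DD D) = Nat.card D :=
  Nat.card_congr (Subgroup.subgroupOfEquivOfLe (le_NN D)).toEquiv

lemma pgroup_DD (hD : IsPGroup p D) : IsPGroup p (DD D) :=
  hD.of_equiv (Subgroup.subgroupOfEquivOfLe (le_NN D)).symm

lemma mem_cent_DD (y : NN D) : y ∈ Subgroup.centralizer (DD D : Set (NN D)) ↔
    (y : G) ∈ Subgroup.centralizer (D : Set G) := by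
  rw [Subgroup.mem_centralizer_iff, Subgroup.mem_centralizer_iff]
  constructor
  · intro h d hd
    have h1 := h ⟨d, le_NN D hd⟩ (by
      change (⟨d, le_NN D hd⟩ : NN D) ∈ DD D
      rw [Subgroup.mem_subgroupOf]
      exact hd)
    exact congrArg Subtype.val h1
  · intro h d hd
    apply Subtype.ext
    exact h d (by
      have : d ∈ DD D := hd
      rw [Subgroup.mem_subgroupOf] at this
      exact this)

lemma mem_Sp_DD (y : NN D) : y ∈ Sp p (DD D) ↔ (y : G) ∈ Sp p D := by
  unfold Sp
  simp only [Set.mem_ofPred_eq, mem_cent_DD, Subgroup.orderOf_coe]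

lemma cent_le_NN {s : G} (hs : s ∈ Subgroup.centralizer (D : Set G)) : s ∈ NN D :=
  Subgroup.centralizer_le_normalizer (D : Set G) hs

lemma card_cent_NN (y : NN D) : Nat.card (Subgroup.centralizer ({y} : Set (NN D))) =
    Nat.card (Subgroup.subgroupOf (NN D) (Subgroup.centralizer ({(y : G)} : Set G))) := by
  refine Nat.card_congr
    { toFun := fun x => ⟨⟨(x : NN D), by
        rw [Subgroup.mem_centralizer_iff]
        intro h hh
        rw [Set.mem_singleton_iff.mp hh]
        exact congrArg Subtype.val (Subgroup.mem_centralizer_iff.mp x.2 y rfl)⟩, by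
          rw [Subgroup.mem_subgroupOf]
          exact x.1.2⟩
      invFun := fun x => ⟨⟨x.1.1, x.2⟩, by
        rw [Subgroup.mem_centralizer_iff]
        intro h hh
        rw [Set.mem_singleton_iff.mp hh]
        exact Subtype.ext (Subgroup.mem_centralizer_iff.mp x.1.2 (y : G) rfl)⟩
      left_inv := fun x => rfl
      right_inv := fun x => rfl }

/-- `|C_G(y)|/|D| ≡ |C_N(y)|/|D|` -/
lemma kk_modEq (hD : IsPGroup p D) (y : NN D) (hy : (y : G) ∈ Subgroup.centralizer (D : Set G)) :
    kk (DD D) y ≡ kk D (y : G) [MOD p] := by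
  obtain ⟨n, hn⟩ := IsPGroup.iff_card.mp hD
  set C := Subgroup.centralizer ({(y : G)} : Set G) with hC
  have hle : D ≤ C := le_centralizer hy
  have hcard : Nat.card (D.subgroupOf C) = p ^ n := by
    rw [Nat.card_congr (Subgroup.subgroupOfEquivOfLe hle).toEquiv, hn]
  have h1 := Sylow.card_quotient_normalizer_modEq_card_quotient (p := p) (H := D.subgroupOf C) hcard
  have hDpos : 0 < Nat.card D := Nat.card_pos
  have h2 : Nat.card (C ⧸ D.subgroupOf C) = kk D (y : G) := by
    have h3 := Subgroup.card_eq_card_quotient_mul_card_subgroup (D.subgroupOf C)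
    rw [hcard, ← hn] at h3
    have h4 := kk_mul hy
    rw [← hC, h3] at h4
    exact (Nat.eq_of_mul_eq_mul_right hDpos h4).symm
  have h5 : Nat.card (Subgroup.normalizer ((D.subgroupOf C : Subgroup C) : Set C) ⧸
      Subgroup.comap (Subgroup.normalizer ((D.subgroupOf C : Subgroup C) : Set C)).subtype
        (D.subgroupOf C)) = kk (DD D) y := by
    have h3 := Subgroup.card_eq_card_quotient_mul_card_subgroup
      (Subgroup.comap (Subgroup.normalizer ((D.subgroupOf C : Subgroup C) : Set C)).subtype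
        (D.subgroupOf C))
    have h6 : Nat.card (Subgroup.comap
        (Subgroup.normalizer ((D.subgroupOf C : Subgroup C) : Set C)).subtype
        (D.subgroupOf C)) = Nat.card D := by
      have h7 : Nat.card (D.subgroupOf C) = Nat.card D := hcard.trans hn.symm
      rw [← h7]
      exact Nat.card_congr (Subgroup.subgroupOfEquivOfLe
        (H := D.subgroupOf C) (K := Subgroup.normalizer ((D.subgroupOf C : Subgroup C) : Set C))
        Subgroup.le_normalizer).toEquiv
    rw [h6] at h3
    have h4 := kk_mul ((mem_cent_DD y).mpr hy)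
    rw [card_DD, card_cent_NN] at h4
    rw [← Subgroup.subgroupOf_normalizer_eq hle] at h3
    rw [← h4] at h3
    rw [← Subgroup.subgroupOf_normalizer_eq hle]
    exact (Nat.eq_of_mul_eq_mul_right hDpos h3).symm
  rw [h2, h5] at h1
  exact h1

/-- fusion: elements of `Sp` with maximal centraliser which are conjugate in `G` are conjugate
in `N_G(D)` -/
lemma fusion (hD : IsPGroup p D) {y z : NN D} (hy : (y : G) ∈ Sp p D) (hz : (z : G) ∈ Sp p D)
    (h : IsConj (y : G) (z : G)) (hk : ¬ p ∣ kk D (y : G)) : IsConj y z := by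
  obtain ⟨c, hc⟩ := isConj_iff.mp h
  set Z := Subgroup.centralizer ({(z : G)} : Set G) with hZ
  have hle1 : D ≤ Z := le_centralizer hz.2
  set D2 : Subgroup G := D.map (MulAut.conj c).toMonoidHom with hD2
  have hle2 : D2 ≤ Z := by
    intro x hx
    obtain ⟨d, hd, rfl⟩ := Subgroup.mem_map.mp hx
    rw [hZ, Subgroup.mem_centralizer_iff]
    intro w hw
    rw [Set.mem_singleton_iff.mp hw, ← hc]
    have h1 := Subgroup.mem_centralizer_iff.mp hy.2 d hd
    simp only [MulEquiv.toMonoidHom_eq_coe, MonoidHom.coe_coe, MulAut.conj_apply]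
    have e1 : c * (y : G) * c⁻¹ * (c * d * c⁻¹) = c * ((y : G) * d) * c⁻¹ := by group
    have e2 : c * d * c⁻¹ * (c * (y : G) * c⁻¹) = c * (d * (y : G)) * c⁻¹ := by group
    rw [e1, e2, h1]
  have hcardD2 : Nat.card D2 = Nat.card D :=
    (Nat.card_congr (D.equivMapOfInjective _ (MulAut.conj c).injective).toEquiv).symm
  have hkz : Nat.card Z = kk D (y : G) * Nat.card D := by
    rw [kk_congr D h, kk_mul hz.2]
  have hDpos : 0 < Nat.card D := Nat.card_pos
  have hidx : ∀ E : Subgroup G, E ≤ Z → Nat.card E = Nat.card D →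
      (E.subgroupOf Z).index = kk D (y : G) := by
    intro E hE hEc
    have h1 := Subgroup.card_mul_index (E.subgroupOf Z)
    rw [Nat.card_congr (Subgroup.subgroupOfEquivOfLe hE).toEquiv, hEc, hkz, mul_comm] at h1
    exact Nat.eq_of_mul_eq_mul_right hDpos h1
  have hp1 : IsPGroup p (D.subgroupOf Z) :=
    hD.of_equiv (Subgroup.subgroupOfEquivOfLe hle1).symm
  have hp2 : IsPGroup p (D2.subgroupOf Z) :=
    (hD.map (MulAut.conj c).toMonoidHom).of_equiv (Subgroup.subgroupOfEquivOfLe hle2).symm
  let P1 : Sylow p Z := hp1.toSylow (by rw [hidx D hle1 rfl]; exact hk)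
  let P2 : Sylow p Z := hp2.toSylow (by rw [hidx D2 hle2 hcardD2]; exact hk)
  obtain ⟨g, hg⟩ := MulAction.exists_smul_eq Z P2 P1
  have hmem : ∀ x : Z, x ∈ D2.subgroupOf Z ↔ g * x * g⁻¹ ∈ D.subgroupOf Z := by
    intro x
    have h1 : (g • P2 : Sylow p Z) = P1 := hg
    have h2 : ((g • P2 : Sylow p Z) : Subgroup Z) = D.subgroupOf Z := by
      rw [h1]
      exact IsPGroup.toSylow_coe _ _
    have h3 : ((P2 : Sylow p Z) : Subgroup Z) = D2.subgroupOf Z := IsPGroup.toSylow_coe _ _
    rw [← h2, ← h3, Sylow.coe_subgroup_smul, ← MulAut.conj_apply]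
    exact (Subgroup.smul_mem_pointwise_smul_iff (a := MulAut.conj g)).symm
  have hn : (g : G) * c ∈ NN D := by
    rw [Subgroup.mem_normalizer_iff]
    intro d
    constructor
    · intro hd
      have h1 : c * d * c⁻¹ ∈ D2 := Subgroup.mem_map.mpr ⟨d, hd, rfl⟩
      have h2 := (hmem ⟨c * d * c⁻¹, hle2 h1⟩).mp (by
        rw [Subgroup.mem_subgroupOf]; exact h1)
      rw [Subgroup.mem_subgroupOf] at h2
      have e : (g : G) * c * d * ((g : G) * c)⁻¹ = (g : G) * (c * d * c⁻¹) * (g : G)⁻¹ := by group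
      rw [e]
      exact h2
    · intro hd
      have e : (g : G) * c * d * ((g : G) * c)⁻¹ = (g : G) * (c * d * c⁻¹) * (g : G)⁻¹ := by group
      rw [e] at hd
      have hZ' : c * d * c⁻¹ ∈ Z := by
        have h3 := hle1 hd
        have h4 := Z.mul_mem (Z.mul_mem (Z.inv_mem g.2) h3) g.2
        have e3 : (g : G)⁻¹ * ((g : G) * (c * d * c⁻¹) * (g : G)⁻¹) * (g : G) = c * d * c⁻¹ := by
          group
        rwa [e3] at h4
      have h2 := (hmem ⟨c * d * c⁻¹, hZ'⟩).mpr (by
        rw [Subgroup.mem_subgroupOf]; exact hd)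
      rw [Subgroup.mem_subgroupOf] at h2
      obtain ⟨d', hd', he⟩ := Subgroup.mem_map.mp h2
      have : d' = d := (MulAut.conj c).injective he
      rw [← this]
      exact hd'
  refine isConj_iff.mpr ⟨⟨(g : G) * c, hn⟩, Subtype.ext ?_⟩
  have hgz : (z : G) * (g : G) = (g : G) * z := Subgroup.mem_centralizer_iff.mp g.2 (z : G) rfl
  change (g : G) * c * (y : G) * ((g : G) * c)⁻¹ = z
  have e : (g : G) * c * (y : G) * ((g : G) * c)⁻¹ = (g : G) * (c * y * c⁻¹) * (g : G)⁻¹ := by group
  rw [e, hc, ← hgz]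
  group

end Pool.Agent.H254R3.IN
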