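import Pool.Agent.H254R3.IN.Compare

set_option linter.style.haveILetI false
set_option linter.unusedSectionVars false

open scoped BigOperators Classical
open Pool.Agent.Helper884 Representation

noncomputable section

namespace Pool.Agent.H254R3.IN

variable {G : Type} [Group G] [Fintype G]

variable {O : ValuationSubring ℂ} {p : ℕ} [hp : Fact p.Prime] {D : Subgroup G}

/-- class sum expansion of a conjugation invariant subset -/
lemma sum_pred {N : Type} [Group N] [Fintype N] (P : N → Prop) [DecidablePred P]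
    (hP : ∀ x y, IsConj x y → (P x ↔ P y)) {θ : N → ℂ} (hθ : IsIrr θ) :
    ∑ y ∈ Finset.univ.filter (fun y => P y), θ y / θ 1 =
      ∑ L ∈ Finset.univ.filter (fun L : ConjClasses N => P (rep L)), omega θ (rep L) := by
  rw [Finset.sum_filter, sum_classes, Finset.sum_filter]
  refine Finset.sum_congr rfl fun L _ => ?_
  have h4 : ∀ y ∈ Finset.univ.filter (fun y => IsConj (rep L) y),
      (if P y then θ y / θ 1 else 0) =
      if P (rep L) then θ (rep L) / θ 1 else 0 := by
    intro y hy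
    have hc := (Finset.mem_filter.mp hy).2
    rw [hθ.isConj hc]
    simp only [hP _ _ hc]
  rw [Finset.sum_congr rfl h4, Finset.sum_const, nsmul_eq_mul]
  have h2 : (Finset.univ.filter (fun g => IsConj (rep L) g)).card =
      Nat.card {y : N // IsConj (rep L) y} := by
    rw [Nat.card_eq_fintype_card, Fintype.card_subtype]
  rw [h2]
  by_cases h : P (rep L)
  · rw [if_pos h, if_pos h]
    unfold omega
    ring
  · rw [if_neg h, if_neg h, mul_zero]

lemma conj_coe {y z : NN D} (h : IsConj y z) : IsConj (y : G) (z : G) := by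
  obtain ⟨c, hc⟩ := isConj_iff.mp h
  exact isConj_iff.mpr ⟨c, by rw [← hc]; rfl⟩

/-- the induced block relation in terms of classes of the normaliser -/
lemma induced_sum {χ : G → ℂ} {θ : NN D → ℂ} (hχ : IsIrr χ) (hθ : IsIrr θ) {x : G}
    (h : omega χ x - ∑ᶠ y : {y : NN D // IsConj x (y : G)}, θ y / θ 1 ∈ O.nonunits) :
    red O (omega χ x) = ∑ L ∈ Finset.univ.filter (fun L : ConjClasses (NN D) =>
      IsConj x ((rep L : NN D) : G)), red O (omega θ (rep L)) := by
  obtain ⟨h1, h2⟩ := red_congr (hχ.omega_mem O x) h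
  rw [h2, ← red_sum _ _ (fun L _ => hθ.omega_mem O _)]
  congr 1
  rw [finsum_eq_sum_of_fintype]
  have h3 : ∑ y : {y : NN D // IsConj x (y : G)}, θ y / θ 1 =
      ∑ y ∈ Finset.univ.filter (fun y : NN D => IsConj x (y : G)), θ y / θ 1 := by
    rw [← Finset.sum_subtype (p := fun y : NN D => IsConj x (y : G))
      (Finset.univ.filter (fun y : NN D => IsConj x (y : G))) (by simp) (fun y => θ y / θ 1)]
  rw [h3]
  exact sum_pred (fun y : NN D => IsConj x (y : G))
    (fun y z hyz => ⟨fun h => h.trans (conj_coe hyz), fun h => h.trans (conj_coe hyz).symm⟩) hθ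

section

variable (hpO : (p : ℂ) ∈ O.nonunits) (hD : IsPGroup p D) {χ : G → ℂ} {θ : NN D → ℂ}
  (hχ : IsIrr χ) (hθ : IsIrr θ)
  (hind : ∀ x : G, omega χ x - ∑ᶠ y : {y : NN D // IsConj x (y : G)}, θ y / θ 1 ∈ O.nonunits)

include hpO hD hχ hθ hind

/-- classes of `G` not meeting `C_G(D)` -/
lemma lam_zero_G {x : G} (hx : ∀ s, IsConj x s → s ∉ Subgroup.centralizer (D : Set G)) :
    red O (omega χ x) = 0 := by
  rw [induced_sum hχ hθ (hind x)]
  apply Finset.sum_eq_zero
  intro L hL
  haveI : (DD D).Normal := Subgroup.normal_in_normalizer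
  apply lam_zero hpO (pgroup_DD hD) hθ
  rw [mem_cent_DD]
  exact hx _ (Finset.mem_filter.mp hL).2

/-- classes of `G` with defect group `D` -/
lemma lam_eq {y : NN D} (hy : (y : G) ∈ Sp p D) (hk : ¬ p ∣ kk D (y : G)) :
    red O (omega χ (y : G)) = red O (omega θ y) := by
  haveI : (DD D).Normal := Subgroup.normal_in_normalizer
  rw [induced_sum hχ hθ (hind y), Finset.sum_eq_single (ConjClasses.mk y)]
  · rw [hθ.omega_congr (rep_mk y)]
  · intro L hL hne
    have hL' := (Finset.mem_filter.mp hL).2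
    apply lam_zero hpO (pgroup_DD hD) hθ
    intro hcon
    apply hne
    rw [mem_cent_DD] at hcon
    have hS : ((rep L : NN D) : G) ∈ Sp p D := ⟨by rw [← orderOf_isConj hL']; exact hy.1, hcon⟩
    have h1 := fusion hD hy hS hL' hk
    rw [eq_comm, mk_eq_iff]
    exact h1.symm
  · intro h
    exfalso
    apply h
    refine Finset.mem_filter.mpr ⟨Finset.mem_univ _, ?_⟩
    exact (conj_coe (rep_mk y)).symm

theorem cc_eq : cc O p D χ = cc O p (DD D) θ := by
  haveI := charP_RF hpO
  haveI : (DD D).Normal := Subgroup.normal_in_normalizer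
  -- facts about classes of N in Sp
  have hrepL : ∀ L : ConjClasses (NN D), (∃ s ∈ Sp p (DD D), IsConj (rep L) s) →
      ((rep L : NN D) : G) ∈ Sp p D ∧ (kk (DD D) (rep L) : RF O) = (kk D ((rep L : NN D) : G) : RF O) := by
    intro L hL
    obtain ⟨s, hs, hc⟩ := hL
    have h1 : rep L ∈ Sp p (DD D) := sp_conj hc hs
    have h2 := (mem_Sp_DD (rep L)).mp h1
    refine ⟨h2, ?_⟩
    exact (CharP.natCast_eq_natCast (RF O) p).mpr (kk_modEq hD (rep L) h2.2)
  have hG : cc O p D χ = ∑ K ∈ (Finset.univ.filter (fun K : ConjClasses G =>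
      ∃ s ∈ Sp p D, IsConj (rep K) s)).filter (fun K => ¬ p ∣ kk D (rep K)),
      (kk D (rep K) : RF O) * (red O (omega χ (rep K)) * red O (omega χ (rep K)⁻¹)) := by
    unfold cc
    symm
    apply Finset.sum_subset (Finset.filter_subset _ _)
    intro K hK hK'
    have : p ∣ kk D (rep K) := by
      by_contra hcon
      exact hK' (Finset.mem_filter.mpr ⟨hK, hcon⟩)
    rw [(CharP.cast_eq_zero_iff (RF O) p _).mpr this, zero_mul]
  have hN : cc O p (DD D) θ = ∑ L ∈ (Finset.univ.filter (fun L : ConjClasses (NN D) =>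
      ∃ s ∈ Sp p (DD D), IsConj (rep L) s)).filter (fun L => ¬ p ∣ kk D ((rep L : NN D) : G)),
      (kk (DD D) (rep L) : RF O) * (red O (omega θ (rep L)) * red O (omega θ (rep L)⁻¹)) := by
    unfold cc
    symm
    apply Finset.sum_subset (Finset.filter_subset _ _)
    intro K hK hK'
    have : p ∣ kk D ((rep K : NN D) : G) := by
      by_contra hcon
      exact hK' (Finset.mem_filter.mpr ⟨hK, hcon⟩)
    rw [(hrepL K (Finset.mem_filter.mp hK).2).2, (CharP.cast_eq_zero_iff (RF O) p _).mpr this,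
      zero_mul]
  rw [hG, hN]
  symm
  apply Finset.sum_bij (fun (L : ConjClasses (NN D)) _ => ConjClasses.mk ((rep L : NN D) : G))
  · intro L hL
    have hL1 := (Finset.mem_filter.mp (Finset.mem_filter.mp hL).1).2
    have hL2 := (Finset.mem_filter.mp hL).2
    refine Finset.mem_filter.mpr ⟨Finset.mem_filter.mpr ⟨Finset.mem_univ _, ?_⟩, ?_⟩
    · exact ⟨_, (hrepL L hL1).1, rep_mk _⟩
    · rw [kk_congr D (rep_mk ((rep L : NN D) : G))]
      exact hL2
  · intro L hL M hM h
    have hL1 := (Finset.mem_filter.mp (Finset.mem_filter.mp hL).1).2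
    have hL2 := (Finset.mem_filter.mp hL).2
    have hM1 := (Finset.mem_filter.mp (Finset.mem_filter.mp hM).1).2
    have h1 : IsConj ((rep L : NN D) : G) ((rep M : NN D) : G) := ConjClasses.mk_eq_mk_iff_isConj.mp h
    have h2 := fusion hD (hrepL L hL1).1 (hrepL M hM1).1 h1 hL2
    rw [← mk_rep L, ← mk_rep M]
    exact ConjClasses.mk_eq_mk_iff_isConj.mpr h2
  · intro K hK
    obtain ⟨s, hs, hc⟩ := (Finset.mem_filter.mp (Finset.mem_filter.mp hK).1).2
    have hK2 := (Finset.mem_filter.mp hK).2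
    have hsN : s ∈ NN D := cent_le_NN hs.2
    have h1 : IsConj ((rep (ConjClasses.mk (⟨s, hsN⟩ : NN D)) : NN D) : G) s := conj_coe (rep_mk _)
    refine ⟨ConjClasses.mk (⟨s, hsN⟩ : NN D), ?_, ?_⟩
    · refine Finset.mem_filter.mpr ⟨Finset.mem_filter.mpr ⟨Finset.mem_univ _, ?_⟩, ?_⟩
      · exact ⟨⟨s, hsN⟩, (mem_Sp_DD _).mpr hs, rep_mk _⟩
      · rw [kk_congr D h1, ← kk_congr D hc]
        exact hK2
    · rw [mk_eq_iff]
      exact hc.trans h1.symm
  · intro L hL
    have hL1 := (Finset.mem_filter.mp (Finset.mem_filter.mp hL).1).2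
    have hL2 := (Finset.mem_filter.mp hL).2
    obtain ⟨h1, h2⟩ := hrepL L hL1
    have hc := rep_mk ((rep L : NN D) : G)
    rw [kk_congr D hc, hχ.omega_congr hc, hχ.omega_congr (inv_isConj hc), h2,
      lam_eq hpO hD hχ hθ hind h1 hL2]
    congr 2
    have h3 : (((rep L)⁻¹ : NN D) : G) ∈ Sp p D := by
      refine ⟨?_, ?_⟩
      · change ¬ p ∣ orderOf (((rep L : NN D) : G)⁻¹)
        rw [orderOf_inv]
        exact h1.1
      · exact Subgroup.inv_mem _ h1.2
    have h4 : ¬ p ∣ kk D (((rep L)⁻¹ : NN D) : G) := by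
      change ¬ p ∣ kk D (((rep L : NN D) : G)⁻¹)
      rw [kk_inv]
      exact hL2
    exact (lam_eq hpO hD hχ hθ hind h3 h4).symm

end

end Pool.Agent.H254R3.IN
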