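import Pool.Agent.H254R3.IN.NonVan2

set_option linter.style.haveILetI false
set_option linter.unusedSectionVars false

open scoped BigOperators Classical
open Pool.Agent.Helper884 Representation

noncomputable section

namespace Pool.Agent.H254R3.IN

variable {G : Type} [Group G] [Fintype G]

variable {O : ValuationSubring ℂ} {p : ℕ} [hp : Fact p.Prime] {D : Subgroup G}

lemma orderOf_isConj {x y : G} (h : IsConj x y) : orderOf x = orderOf y := by
  obtain ⟨c, rfl⟩ := isConj_iff.mp h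
  rw [← MulAut.conj_apply]
  exact ((MulAut.conj c).orderOf_eq x).symm

lemma inv_isConj {x y : G} (h : IsConj x y) : IsConj x⁻¹ y⁻¹ := by
  obtain ⟨c, rfl⟩ := isConj_iff.mp h
  exact isConj_iff.mpr ⟨c, by group⟩

/-- the truncated inner product times `|D|` -/
def mD (p : ℕ) (D : Subgroup G) (χ : G → ℂ) : ℂ :=
  Nat.card D * ((Nat.card G : ℂ)⁻¹ *
    ∑ g ∈ Finset.univ.filter (fun g : G => ¬ p ∣ orderOf g), χ g * χ g⁻¹)

lemma mD_eq {χ : G → ℂ} (hχ : IsIrr χ) : mD p D χ =
    ∑ K ∈ Finset.univ.filter (fun K : ConjClasses G => ¬ p ∣ orderOf (rep K)),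
      uu D χ * omega χ (rep K) * χ (rep K)⁻¹ := by
  unfold mD
  rw [Finset.sum_filter, sum_classes, Finset.sum_filter, Finset.mul_sum, Finset.mul_sum]
  refine Finset.sum_congr rfl fun K _ => ?_
  have h1 : ∀ g ∈ Finset.univ.filter (fun g => IsConj (rep K) g),
      (if ¬ p ∣ orderOf g then χ g * χ g⁻¹ else 0) =
      if ¬ p ∣ orderOf (rep K) then χ (rep K) * χ (rep K)⁻¹ else 0 := by
    intro g hg
    have hc := (Finset.mem_filter.mp hg).2
    rw [← orderOf_isConj hc, ← hχ.isConj hc, ← hχ.isConj (inv_isConj hc)]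
  rw [Finset.sum_congr rfl h1, Finset.sum_const, nsmul_eq_mul]
  by_cases h : p ∣ orderOf (rep K)
  swap
  · rw [if_pos h, if_pos h]
    unfold uu omega
    have h2 : (Finset.univ.filter (fun g => IsConj (rep K) g)).card =
        Nat.card {y : G // IsConj (rep K) y} := by
      rw [Nat.card_eq_fintype_card, Fintype.card_subtype]
    rw [h2]
    have h3 : (Nat.card G : ℂ) ≠ 0 := by exact_mod_cast Nat.card_pos.ne'
    have h4 := hχ.one_ne
    field_simp
  · rw [if_neg (not_not.mpr h), if_neg (not_not.mpr h)]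
    simp

theorem core {χ : G → ℂ} (hχ : IsIrr χ) (hu : uu D χ ∈ O)
    (hlam : ∀ x : G, ¬ p ∣ orderOf x →
      (∀ s, IsConj x s → s ∉ Subgroup.centralizer (D : Set G)) → red O (omega χ x) = 0) :
    red O (mD p D χ) = red O (uu D χ) ^ 2 * cc O p D χ := by
  have hm : ∀ K ∈ Finset.univ.filter (fun K : ConjClasses G => ¬ p ∣ orderOf (rep K)),
      uu D χ * omega χ (rep K) * χ (rep K)⁻¹ ∈ O := fun K _ =>
    O.mul_mem _ _ (O.mul_mem _ _ hu (hχ.omega_mem O _)) (hχ.val_mem O _)
  rw [mD_eq hχ, red_sum _ _ hm, cc, Finset.mul_sum]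
  symm
  apply Finset.sum_subset_zero_on_sdiff
  · intro K hK
    obtain ⟨s, hs, hc⟩ := (Finset.mem_filter.mp hK).2
    refine Finset.mem_filter.mpr ⟨Finset.mem_univ _, ?_⟩
    rw [orderOf_isConj hc]
    exact hs.1
  · intro K hK
    rw [Finset.mem_sdiff] at hK
    have h1 := (Finset.mem_filter.mp hK.1).2
    rw [red_mul (O.mul_mem _ _ hu (hχ.omega_mem O _)) (hχ.val_mem O _),
      red_mul hu (hχ.omega_mem O _), hlam (rep K) h1, mul_zero, zero_mul]
    intro s hs hcent
    apply hK.2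
    refine Finset.mem_filter.mpr ⟨Finset.mem_univ _, s, ⟨?_, hcent⟩, hs⟩
    rw [← orderOf_isConj hs]
    exact h1
  · intro K hK
    obtain ⟨s, hs, hc⟩ := (Finset.mem_filter.mp hK).2
    rw [red_mul (O.mul_mem _ _ hu (hχ.omega_mem O _)) (hχ.val_mem O _),
      red_mul hu (hχ.omega_mem O _), val_eq_kk hχ (inv_isConj hc) (Subgroup.inv_mem _ hs.2),
      kk_inv, red_mul (O.mul_mem _ _ (hχ.omega_mem O _) hu) (natCast_mem' _),
      red_mul (hχ.omega_mem O _) hu, red_natCast]
    ring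

end Pool.Agent.H254R3.IN
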