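import Pool.Agent.H254R3.IN.Fin

set_option linter.style.haveILetI false
set_option linter.unusedSectionVars false

open scoped BigOperators Classical
open Pool.Agent.Helper884 Representation

noncomputable section

namespace Pool.Agent.H254R3.IN

variable {G : Type} [Group G] [Fintype G]
variable {O : ValuationSubring ℂ} {p : ℕ} [hp : Fact p.Prime]
  {D : Subgroup G} {B : Set (G → ℂ)} {b : Set (Subgroup.normalizer (D : Set G) → ℂ)}

/-- the degree condition in `ZMod p` -/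
lemma cond_iff {K : Type} [Group K] {θ : K → ℂ} {n : ℕ} (hn : (n : ℂ) = θ 1) (m : ℤ) :
    (∃ n : ℕ, (n : ℂ) = θ 1 ∧
      ((pPrimePart p n : ℤ) ≡ m [ZMOD p] ∨ (pPrimePart p n : ℤ) ≡ -m [ZMOD p])) ↔
    ((pPrimePart p n : ZMod p) = m ∨ (pPrimePart p n : ZMod p) = -m) := by
  have h1 : ∀ k : ℤ, (pPrimePart p n : ℤ) ≡ k [ZMOD p] ↔ (pPrimePart p n : ZMod p) = k := by
    intro k
    rw [← ZMod.intCast_eq_intCast_iff]
    push_cast
    rfl
  constructor
  · rintro ⟨n', hn', h⟩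
    have : n' = n := by
      have : (n' : ℂ) = n := by rw [hn', hn]
      exact_mod_cast this
    subst this
    rw [h1, h1] at h
    push_cast at h
    exact h
  · intro h
    refine ⟨n, hn, ?_⟩
    rw [h1, h1]
    push_cast
    exact h

/-- **Main theorem**: the degree congruences of Isaacs and Navarro follow from a perfect isometry
between a block and its Brauer correspondent. -/
theorem count_eq (hpO : (p : ℂ) ∈ O.nonunits) (hB : IsBlock O B) (hD : IsDefectGroup p O B D)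
    (hb : IsBrauerCorrespondent p O D B b)
    (hI : ∃ I : ZIrr B ≃+ ZIrr b, IsPerfectIsometry p O I) (k : ℤ) :
    degCount p B ((pPrimePart p (Subgroup.normalizer (D : Set G)).index : ℤ) * k) =
      degCount p b k := by
  obtain ⟨I, hI⟩ := hI
  obtain ⟨F, E, hFE, hinj, hsurj, hmu⟩ := exists_signed hB.irr hb.1.irr I hI.isometry
  have hr := ratio hpO hB hD hb I hI F E hFE hinj hsurj hmu
  have hidx : (Subgroup.normalizer (D : Set G)).index ≠ 0 := Subgroup.index_ne_zero_of_finite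
  obtain ⟨-, hγ⟩ := pPrimePart_spec (p := p) hidx
  set γ := pPrimePart p (Subgroup.normalizer (D : Set G)).index with hγdef
  have hγ0 : (γ : ZMod p) ≠ 0 := by
    intro h
    exact hγ ((ZMod.natCast_eq_zero_iff _ _).mp h)
  -- degree comparison
  have hdeg : ∀ χ ∈ B, ∀ n m : ℕ, (n : ℂ) = χ 1 → (m : ℂ) = F χ 1 →
      (pPrimePart p n : ZMod p) = γ * pPrimePart p m ∨
      (pPrimePart p n : ZMod p) = -(γ * pPrimePart p m) := by
    intro χ hχ n m hn hm
    have h1 := (hB.irr χ hχ).one_ne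
    have h2 := (hb.1.irr _ (hFE χ hχ).1).one_ne
    have hn0 : n ≠ 0 := by
      rintro rfl
      exact h1 (by rw [← hn]; simp)
    have hm0 : m ≠ 0 := by
      rintro rfl
      exact h2 (by rw [← hm]; simp)
    have hE1 : E χ * E χ = 1 := by
      rcases (hFE χ hχ).2 with h | h <;> rw [h] <;> ring
    have hEO : E χ ∈ O := by
      rcases (hFE χ hχ).2 with h | h
      · rw [h]; exact O.one_mem
      · rw [h]; exact O.neg_mem _ O.one_mem
    have hkO : kap F E χ ∈ O := by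
      apply (inv_mem_of_red_ne _).1
      intro h0
      have := hr χ hχ
      rw [h0] at this
      norm_num at this
    have hE2 : red O (E χ) ^ 2 = 1 := by
      rw [sq, ← red_mul hEO hEO, hE1, red_one]
    apply deg_congr hpO (κ := E χ * kap F E χ) _ hn0 hm0 hidx
    · have hcard : (Nat.card G : ℂ) = Nat.card (Subgroup.normalizer (D : Set G)) *
          (Subgroup.normalizer (D : Set G)).index := by
        exact_mod_cast (Subgroup.card_mul_index _).symm
      have h3 := cardG_ne (Subgroup.normalizer (D : Set G))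
      unfold kap
      rw [hcard, hn, hm]
      have h4 : E χ * (E χ * F χ 1 * ((Nat.card (Subgroup.normalizer (D : Set G)) : ℂ) *
          (Subgroup.normalizer (D : Set G)).index) /
          ((Nat.card (Subgroup.normalizer (D : Set G)) : ℂ) * χ 1)) * χ 1 =
          (E χ * E χ) * (F χ 1 * (Subgroup.normalizer (D : Set G)).index) := by
        field_simp
      rw [h4, hE1, one_mul]
    · rw [red_mul hEO hkO, mul_pow, hE2, hr χ hχ, one_mul]
  have hiff : ∀ χ ∈ B,
      ((∃ n : ℕ, (n : ℂ) = χ 1 ∧ ((pPrimePart p n : ℤ) ≡ (γ : ℤ) * k [ZMOD p] ∨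
        (pPrimePart p n : ℤ) ≡ -((γ : ℤ) * k) [ZMOD p])) ↔
      (∃ n : ℕ, (n : ℂ) = F χ 1 ∧ ((pPrimePart p n : ℤ) ≡ k [ZMOD p] ∨
        (pPrimePart p n : ℤ) ≡ -k [ZMOD p]))) := by
    intro χ hχ
    obtain ⟨n, -, hn⟩ := (hB.irr χ hχ).deg
    obtain ⟨m, -, hm⟩ := (hb.1.irr _ (hFE χ hχ).1).deg
    rw [cond_iff hn, cond_iff hm]
    push_cast
    have hcan : ∀ x y : ZMod p, (γ : ZMod p) * x = γ * y ↔ x = y := fun x y =>
      ⟨fun h => mul_left_cancel₀ hγ0 h, fun h => by rw [h]⟩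
    rcases hdeg χ hχ n m hn hm with h | h
    · rw [h, ← mul_neg, hcan, hcan]
    · rw [h, ← mul_neg, hcan, ← mul_neg, hcan, neg_inj, neg_eq_iff_eq_neg]
      exact or_comm
  unfold degCount
  refine Nat.card_congr (Equiv.ofBijective
    (fun χ : {θ : G → ℂ // θ ∈ B ∧ ∃ n : ℕ, (n : ℂ) = θ 1 ∧
      ((pPrimePart p n : ℤ) ≡ (γ : ℤ) * k [ZMOD p] ∨
        (pPrimePart p n : ℤ) ≡ -((γ : ℤ) * k) [ZMOD p])} =>
      (⟨F χ.1, (hFE χ.1 χ.2.1).1, (hiff χ.1 χ.2.1).mp χ.2.2⟩ :
        {θ : Subgroup.normalizer (D : Set G) → ℂ // θ ∈ b ∧ ∃ n : ℕ, (n : ℂ) = θ 1 ∧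
          ((pPrimePart p n : ℤ) ≡ k [ZMOD p] ∨ (pPrimePart p n : ℤ) ≡ -k [ZMOD p])})) ⟨?_, ?_⟩)
  · intro χ ψ h
    have h1 := congrArg Subtype.val h
    exact Subtype.ext (hinj χ.1 χ.2.1 ψ.1 ψ.2.1 h1)
  · intro θ
    obtain ⟨χ, hχ, hF⟩ := hsurj θ.1 θ.2.1
    refine ⟨⟨χ, hχ, (hiff χ hχ).mpr (by rw [hF]; exact θ.2.2)⟩, Subtype.ext hF⟩

end Pool.Agent.H254R3.IN
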