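import Pool.Agent.H254R3.IN.PI
import Pool.Agent.H254R3.IN.Compare2

set_option linter.style.haveILetI false
set_option linter.unusedSectionVars false

open scoped BigOperators Classical
open Pool.Agent.Helper884 Representation

noncomputable section

namespace Pool.Agent.H254R3.IN

section defect

variable {G : Type} [Group G] [Fintype G]
variable {O : ValuationSubring ℂ} {p : ℕ} [hp : Fact p.Prime] (hpO : (p : ℂ) ∈ O.nonunits)
  {D : Subgroup G} {B : Set (G → ℂ)} (hB : IsBlock O B) (hD : IsDefectGroup p O B D)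

include hD in
lemma defect_pgroup : IsPGroup p D := by
  obtain ⟨x, ⟨P, rfl⟩, -, -⟩ := hD
  exact P.isPGroup'.map _

include hpO hB hD in
lemma uu_mem {χ : G → ℂ} (hχ : χ ∈ B) : uu D χ ∈ O := by
  obtain ⟨x, ⟨P, rfl⟩, hω, -⟩ := hD
  have hirr := hB.irr χ hχ
  have h1 := hω χ hχ
  have h2 : red O (omega χ x) ≠ 0 := fun h => h1 ((red_eq_zero_iff (hirr.omega_mem O x)).mp h)
  obtain ⟨h3, h4, h5⟩ := inv_mem_of_red_ne h2
  have hcard : Nat.card ((P : Subgroup (Subgroup.centralizer ({x} : Set G))).map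
      (Subgroup.centralizer ({x} : Set G)).subtype) = Nat.card P :=
    (Nat.card_congr ((P : Subgroup (Subgroup.centralizer ({x} : Set G))).equivMapOfInjective _
      (Subgroup.centralizer ({x} : Set G)).subtype_injective).toEquiv).symm
  have h6 : Nat.card P * (P : Subgroup (Subgroup.centralizer ({x} : Set G))).index =
      Nat.card (Subgroup.centralizer ({x} : Set G)) := Subgroup.card_mul_index _
  have h7 : ¬ p ∣ (P : Subgroup (Subgroup.centralizer ({x} : Set G))).index := P.not_dvd_index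
  have h8 := hirr.val_eq x
  have hG0 : (Nat.card G : ℂ) ≠ 0 := by exact_mod_cast Nat.card_pos.ne'
  have hP0 : (Nat.card P : ℂ) ≠ 0 := by exact_mod_cast Nat.card_pos.ne'
  have hk0 : ((P : Subgroup (Subgroup.centralizer ({x} : Set G))).index : ℂ) ≠ 0 := by
    exact_mod_cast (Subgroup.index_ne_zero_of_finite)
  have h9 : (Nat.card (Subgroup.centralizer ({x} : Set G)) : ℂ) =
      Nat.card P * (P : Subgroup (Subgroup.centralizer ({x} : Set G))).index := by
    exact_mod_cast h6.symm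
  have h10 : uu ((P : Subgroup (Subgroup.centralizer ({x} : Set G))).map
      (Subgroup.centralizer ({x} : Set G)).subtype) χ =
      χ x * (omega χ x)⁻¹ *
        (((P : Subgroup (Subgroup.centralizer ({x} : Set G))).index : ℂ))⁻¹ := by
    unfold uu
    rw [hcard]
    conv_rhs => rw [h8]
    rw [h9]
    field_simp
  rw [h10]
  exact O.mul_mem _ _ (O.mul_mem _ _ (hirr.val_mem O x) h4) (nat_inv_mem hpO h7)

end defect

section arith

variable {O : ValuationSubring ℂ} {p : ℕ} [hp : Fact p.Prime] (hpO : (p : ℂ) ∈ O.nonunits)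

lemma pPrimePart_spec {n : ℕ} (hn : n ≠ 0) : n = p ^ n.factorization p * pPrimePart p n ∧
    ¬ p ∣ pPrimePart p n :=
  ⟨(Nat.ordProj_mul_ordCompl_eq_self n p).symm, Nat.not_dvd_ordCompl hp.out hn⟩

include hpO in
lemma deg_congr {κ : ℂ} (hκ : red O κ ^ 2 = 1) {n m i : ℕ} (hn : n ≠ 0) (hm : m ≠ 0) (hi : i ≠ 0)
    (h : κ * n = m * i) :
    (pPrimePart p n : ZMod p) = pPrimePart p i * pPrimePart p m ∨
      (pPrimePart p n : ZMod p) = -(pPrimePart p i * pPrimePart p m) := by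
  haveI := charP_RF hpO
  obtain ⟨hn1, hn2⟩ := pPrimePart_spec (p := p) hn
  obtain ⟨hm1, hm2⟩ := pPrimePart_spec (p := p) hm
  obtain ⟨hi1, hi2⟩ := pPrimePart_spec (p := p) hi
  set n' := pPrimePart p n
  set m' := pPrimePart p m
  set i' := pPrimePart p i
  set a := n.factorization p
  set b := m.factorization p
  set c := i.factorization p
  have hκne : red O κ ≠ 0 := by
    intro h0
    rw [h0] at hκ
    norm_num at hκ
  have hκO := (inv_mem_of_red_ne hκne).1
  have hpne : (p : ℂ) ≠ 0 := by exact_mod_cast hp.out.ne_zero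
  have hp0 : red O (p : ℂ) = 0 := red_eq_zero hpO
  have hM : ¬ p ∣ i' * m' := by
    intro hd
    rcases (hp.out.dvd_mul).mp hd with h1 | h1
    · exact hi2 h1
    · exact hm2 h1
  have hMne : ((i' * m' : ℕ) : RF O) ≠ 0 := by
    intro h0
    exact hM ((CharP.cast_eq_zero_iff (RF O) p _).mp h0)
  have hnne : ((n' : ℕ) : RF O) ≠ 0 := by
    intro h0
    exact hn2 ((CharP.cast_eq_zero_iff (RF O) p _).mp h0)
  have h1 : κ * ((p : ℂ) ^ a * n') = (p : ℂ) ^ (b + c) * ((i' * m' : ℕ) : ℂ) := by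
    have e1 : (n : ℂ) = (p : ℂ) ^ a * n' := by exact_mod_cast hn1
    have e2 : (m : ℂ) = (p : ℂ) ^ b * m' := by exact_mod_cast hm1
    have e3 : (i : ℂ) = (p : ℂ) ^ c * i' := by exact_mod_cast hi1
    rw [← e1, h, e2, e3]
    push_cast
    ring
  have key : red O κ * (n' : RF O) = ((i' * m' : ℕ) : RF O) := by
    rcases lt_or_ge (b + c) a with hlt | hge
    · exfalso
      obtain ⟨t, ht⟩ := Nat.exists_eq_add_of_lt hlt
      have h2 : κ * ((p : ℂ) ^ (t + 1) * n') = ((i' * m' : ℕ) : ℂ) := by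
        have h3 : (p : ℂ) ^ (b + c) ≠ 0 := pow_ne_zero _ hpne
        apply mul_left_cancel₀ h3
        rw [← h1, ht]
        ring
      have h3 := congrArg (red O) h2
      have hpO' : (p : ℂ) ∈ O := natCast_mem' p
      have e1 : (p : ℂ) ^ (t + 1) * n' = p * ((p : ℂ) ^ t * n') := by ring
      have e2 : (p : ℂ) ^ t * n' ∈ O := O.mul_mem _ _ (pow_mem hpO' t) (natCast_mem' _)
      rw [e1, red_mul hκO (O.mul_mem _ _ hpO' e2), red_mul hpO' e2, hp0, zero_mul, mul_zero,
        red_natCast] at h3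
      exact hMne h3.symm
    · obtain ⟨t, ht⟩ := Nat.exists_eq_add_of_le hge
      have h2 : κ * n' = (p : ℂ) ^ t * ((i' * m' : ℕ) : ℂ) := by
        have h3 : (p : ℂ) ^ a ≠ 0 := pow_ne_zero _ hpne
        apply mul_left_cancel₀ h3
        calc (p : ℂ) ^ a * (κ * n') = κ * ((p : ℂ) ^ a * n') := by ring
          _ = (p : ℂ) ^ (b + c) * ((i' * m' : ℕ) : ℂ) := h1
          _ = (p : ℂ) ^ a * ((p : ℂ) ^ t * ((i' * m' : ℕ) : ℂ)) := by rw [ht]; ring
      rcases Nat.eq_zero_or_pos t with rfl | htpos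
      · rw [pow_zero, one_mul] at h2
        have h3 := congrArg (red O) h2
        rw [red_mul hκO (natCast_mem' _), red_natCast, red_natCast] at h3
        exact h3
      · exfalso
        obtain ⟨s, rfl⟩ := Nat.exists_eq_succ_of_ne_zero htpos.ne'
        have h3 := congrArg (red O) h2
        have hpO' : (p : ℂ) ∈ O := natCast_mem' p
        have e1 : (p : ℂ) ^ (s + 1) * ((i' * m' : ℕ) : ℂ) = p * ((p : ℂ) ^ s * ((i' * m' : ℕ) : ℂ)) := by
          ring
        have e2 : (p : ℂ) ^ s * ((i' * m' : ℕ) : ℂ) ∈ O :=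
          O.mul_mem _ _ (pow_mem hpO' s) (natCast_mem' _)
        rw [Nat.succ_eq_add_one, e1, red_mul hκO (natCast_mem' _), red_mul hpO' e2, hp0, zero_mul,
          red_natCast] at h3
        exact (mul_ne_zero hκne hnne) h3
  have h5 : (red O κ - 1) * (red O κ + 1) = 0 := by linear_combination hκ
  rcases mul_eq_zero.mp h5 with h6 | h6
  · left
    rw [sub_eq_zero.mp h6, one_mul] at key
    have h7 := (CharP.natCast_eq_natCast (RF O) p).mp key
    have h8 := (ZMod.natCast_eq_natCast_iff _ _ p).mpr h7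
    push_cast at h8
    exact h8
  · right
    rw [eq_neg_of_add_eq_zero_left h6] at key
    have h7 : ((n' + i' * m' : ℕ) : RF O) = ((0 : ℕ) : RF O) := by
      push_cast at key ⊢
      linear_combination - key
    have h8 := (CharP.natCast_eq_natCast (RF O) p).mp h7
    have h9 := (ZMod.natCast_eq_natCast_iff _ _ p).mpr h8
    push_cast at h9
    linear_combination h9

end arith

section main

variable {G : Type} [Group G] [Fintype G]
variable {O : ValuationSubring ℂ} {p : ℕ} [hp : Fact p.Prime] (hpO : (p : ℂ) ∈ O.nonunits)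
  {D : Subgroup G} {B : Set (G → ℂ)} {b : Set (Subgroup.normalizer (D : Set G) → ℂ)}

include hpO in
/-- the main congruence: the ratio is `±1` modulo the maximal ideal -/
theorem ratio (hB : IsBlock O B) (hD : IsDefectGroup p O B D)
    (hb : IsBrauerCorrespondent p O D B b) (I : ZIrr B ≃+ ZIrr b)
    (hI : IsPerfectIsometry p O I)
    (F : (G → ℂ) → (NN D → ℂ)) (E : (G → ℂ) → ℂ)
    (hFE : ∀ χ ∈ B, F χ ∈ b ∧ (E χ = 1 ∨ E χ = -1))
    (hinj : ∀ χ ∈ B, ∀ ψ ∈ B, F χ = F ψ → χ = ψ)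
    (hsurj : ∀ θ ∈ b, ∃ χ ∈ B, F χ = θ)
    (hmu : ∀ (g : G) (h : NN D), mu I g h =
        ∑ χ ∈ (IC.Irr G).filter (· ∈ B), χ g * (E χ * F χ h⁻¹)) :
    ∀ χ ∈ B, red O (kap F E χ) ^ 2 = 1 := by
  obtain ⟨hb1, hb2, hb3⟩ := hb
  have hBi := hB.irr
  have hbi := hb1.irr
  have hDp := defect_pgroup hD
  haveI : (DD D).Normal := Subgroup.normal_in_normalizer
  obtain ⟨hk1, hk2⟩ := kap_facts hBi hbi I F E hFE hinj hmu (O := O)
    hI.integral_left hI.integral_right (fun χ hχ ψ hψ x => hB.red_eq hχ hψ x)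
  obtain ⟨χ₁, hχ₁⟩ := hB.nonempty
  have hub : ∀ θ ∈ b, uu (DD D) θ ∈ O := fun θ hθ => uu_mem hpO hb1 hb2 hθ
  -- a character of height zero
  obtain ⟨-, θ₀, hθ₀, hu₀⟩ := cc_ne_zero hpO (pgroup_DD hDp) hb1 hub (hFE χ₁ hχ₁).1
  obtain ⟨χ₀, hχ₀, rfl⟩ := hsurj θ₀ hθ₀
  obtain ⟨hc, -⟩ := cc_ne_zero hpO (pgroup_DD hDp) hb1 hub hθ₀
  have huG : uu D χ₀ ∈ O := uu_mem hpO hB hD hχ₀
  have hind := fun x => hb3 χ₀ hχ₀ (F χ₀) hθ₀ x
  have hcc := cc_eq hpO hDp (hBi χ₀ hχ₀) (hbi _ hθ₀) hind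
  have coreG := core (p := p) (hBi χ₀ hχ₀) huG
    (fun x _ hx => lam_zero_G hpO hDp (hBi χ₀ hχ₀) (hbi _ hθ₀) hind hx)
  have coreN := core (p := p) (hbi _ hθ₀) (hub _ hθ₀)
    (fun x _ hx => lam_zero hpO (pgroup_DD hDp) (hbi _ hθ₀) (hx x (IsConj.refl x)))
  have hmm : mD p D χ₀ = mD p (DD D) (F χ₀) := by
    have h1 := trunc hBi hbi I F E hFE hinj hmu (p := p) hI.separation hχ₀
    unfold mD
    rw [card_DD]
    congr 1
    have h3 := cardG_ne G
    have h4 := cardG_ne (NN D)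
    field_simp
    linear_combination h1
  have hkap : uu (DD D) (F χ₀) = E χ₀ * kap F E χ₀ * uu D χ₀ := by
    unfold uu kap
    rw [card_DD]
    have h3 := cardG_ne G
    have h4 := cardG_ne (NN D)
    have h5 := (hBi χ₀ hχ₀).one_ne
    have h7 : E χ₀ * E χ₀ = 1 := by
      rcases (hFE χ₀ hχ₀).2 with h | h <;> rw [h] <;> ring
    field_simp
    linear_combination (- F χ₀ 1) * h7
  have hE2 : red O (E χ₀) ^ 2 = 1 := by
    rcases (hFE χ₀ hχ₀).2 with h | h
    · rw [h, red_one, one_pow]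
    · rw [h, red_neg O.one_mem, red_one]
      ring
  have hEO : E χ₀ ∈ O := by
    rcases (hFE χ₀ hχ₀).2 with h | h
    · rw [h]; exact O.one_mem
    · rw [h]; exact O.neg_mem _ O.one_mem
  have hsq : red O (uu (DD D) (F χ₀)) ^ 2 = red O (kap F E χ₀) ^ 2 * red O (uu D χ₀) ^ 2 := by
    rw [hkap, red_mul (O.mul_mem _ _ hEO (hk1 χ₀ hχ₀).1) huG, red_mul hEO (hk1 χ₀ hχ₀).1]
    linear_combination (red O (kap F E χ₀) ^ 2 * red O (uu D χ₀) ^ 2) * hE2
  have heq : red O (uu D χ₀) ^ 2 = red O (uu (DD D) (F χ₀)) ^ 2 := by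
    rw [hmm, coreN, hcc] at coreG
    exact (mul_right_cancel₀ hc coreG).symm
  have hfin : red O (kap F E χ₀) ^ 2 = 1 := by
    rw [← heq] at hsq
    have hne : red O (uu D χ₀) ^ 2 ≠ 0 := by
      rw [heq]
      exact pow_ne_zero _ hu₀
    have h1 : red O (kap F E χ₀) ^ 2 * red O (uu D χ₀) ^ 2 = 1 * red O (uu D χ₀) ^ 2 := by
      rw [one_mul]
      exact hsq.symm
    exact mul_right_cancel₀ hne h1
  intro χ hχ
  rw [hk2 χ hχ χ₀ hχ₀]
  exact hfin

end main

end Pool.Agent.H254R3.IN
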