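import Pool.Agent.H254R3.IN.Chars

set_option linter.style.haveILetI false
set_option linter.unusedSectionVars false

open scoped BigOperators Classical
open Representation Pool.Agent.Helper884

noncomputable section

namespace Pool.Agent.H254R3.IN

variable {G : Type} [Group G] [Fintype G]

/-- class function -/
def IsCl (f : G → ℂ) : Prop := ∀ g y : G, f (y * g * y⁻¹) = f g

/-- the scalar by which the central element with coefficients `f` acts -/
def Om (f χ : G → ℂ) : ℂ := (∑ g, f g * χ g) / χ 1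

/-- convolution -/
def conv (f h : G → ℂ) (g : G) : ℂ := ∑ x, f x * h (x⁻¹ * g)

lemma IsCl.isConj {f : G → ℂ} (hf : IsCl f) {x y : G} (h : IsConj x y) : f x = f y := by
  obtain ⟨c, rfl⟩ := isConj_iff.mp h
  exact (hf x c).symm

lemma IsCl.conv {f h : G → ℂ} (hf : IsCl f) (hh : IsCl h) : IsCl (conv f h) := by
  intro g y
  unfold IN.conv
  refine Fintype.sum_equiv (MulAut.conj y⁻¹).toEquiv _ _ fun x => ?_
  have e1 : (MulAut.conj y⁻¹).toEquiv x = y⁻¹ * x * y := by simp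
  rw [e1]
  have h1 : f (y⁻¹ * x * y) = f x := by simpa using hf x y⁻¹
  have h2 : h ((y⁻¹ * x * y)⁻¹ * g) = h (x⁻¹ * (y * g * y⁻¹)) := by
    rw [← hh ((y⁻¹ * x * y)⁻¹ * g) y]
    congr 1
    group
  rw [h1, h2]

lemma conv_mem {O : ValuationSubring ℂ} {f h : G → ℂ} (hf : ∀ g, f g ∈ O) (hh : ∀ g, h g ∈ O)
    (g : G) : conv f h g ∈ O :=
  sum_mem fun x _ => O.mul_mem _ _ (hf x) (hh _)

lemma op_conv {V : Type} [AddCommGroup V] [Module ℂ V] (ρ : Representation ℂ G V) (f h : G → ℂ) :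
    ∑ g, conv f h g • ρ g = (∑ g, f g • ρ g) * (∑ g, h g • ρ g) := by
  rw [Finset.sum_mul_sum]
  unfold conv
  simp only [Finset.sum_smul]
  rw [Finset.sum_comm]
  refine Finset.sum_congr rfl fun x _ => ?_
  refine Fintype.sum_equiv (Equiv.mulLeft x⁻¹) _ _ fun g => ?_
  simp only [Equiv.coe_mulLeft]
  rw [smul_mul_smul_comm, ← map_mul, mul_inv_cancel_left]

lemma Om_conv {χ : G → ℂ} (hχ : IsIrr χ) {f h : G → ℂ} (hf : IsCl f) (hh : IsCl h) :
    Om (conv f h) χ = Om f χ * Om h χ := by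
  obtain ⟨V, _, _, _, ρ, hr, rfl⟩ := hχ
  haveI := irr_nontrivial ρ hr
  apply scalar_inj (V := V)
  have h1 := class_scalar ρ hr _ (hf.conv hh)
  have h2 := class_scalar ρ hr _ hf
  have h3 := class_scalar ρ hr _ hh
  have h4 := op_conv ρ f h
  rw [h1, h2, h3] at h4
  unfold Om
  rw [h4]
  ext v
  simp only [Module.End.mul_apply, LinearMap.smul_apply, LinearMap.id_apply, mul_smul]

lemma Om_sub (f h χ : G → ℂ) : Om (fun g => f g - h g) χ = Om f χ - Om h χ := by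
  unfold Om
  rw [← sub_div, ← Finset.sum_sub_distrib]
  congr 1
  refine Finset.sum_congr rfl fun g _ => ?_
  ring

lemma Om_smul (c : ℂ) (f χ : G → ℂ) : Om (fun g => c * f g) χ = c * Om f χ := by
  unfold Om
  rw [← mul_div_assoc, Finset.mul_sum]
  congr 1
  refine Finset.sum_congr rfl fun g _ => ?_
  ring

/-- identity element -/
def dl (g : G) : ℂ := if g = 1 then 1 else 0

lemma dl_cl : IsCl (dl : G → ℂ) := by
  intro g y
  unfold dl
  have : y * g * y⁻¹ = 1 ↔ g = 1 := by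
    constructor
    · intro h
      have h2 : g = y⁻¹ * (y * g * y⁻¹) * y := by group
      rw [h2, h]
      group
    · intro h
      rw [h]
      group
  simp only [this]

lemma dl_mem (O : ValuationSubring ℂ) (g : G) : dl g ∈ O := by
  unfold dl
  split_ifs
  · exact O.one_mem
  · exact O.zero_mem

lemma Om_dl {χ : G → ℂ} (hχ : IsIrr χ) : Om dl χ = 1 := by
  unfold Om dl
  simp only [ite_mul, one_mul, zero_mul, Finset.sum_ite_eq', Finset.mem_univ, if_true]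
  exact div_self hχ.one_ne

/-- class indicator -/
def ind (x g : G) : ℂ := if IsConj x g then 1 else 0

lemma ind_cl (x : G) : IsCl (ind x) := by
  intro g y
  unfold ind
  have : IsConj x (y * g * y⁻¹) ↔ IsConj x g := by
    have h2 : IsConj g (y * g * y⁻¹) := isConj_iff.mpr ⟨y, rfl⟩
    exact ⟨fun h => h.trans h2.symm, fun h => h.trans h2⟩
  simp only [this]

lemma ind_mem (O : ValuationSubring ℂ) (x g : G) : ind x g ∈ O := by
  unfold ind
  split_ifs
  · exact O.one_mem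
  · exact O.zero_mem

lemma Om_ind {χ : G → ℂ} (hχ : IsIrr χ) (x : G) : Om (ind x) χ = omega χ x := by
  unfold Om ind omega
  simp only [ite_mul, one_mul, zero_mul]
  rw [← Finset.sum_filter]
  congr 1
  rw [Finset.sum_congr rfl (g := fun _ => χ x)
    (fun y hy => (hχ.isConj (Finset.mem_filter.mp hy).2).symm), Finset.sum_const, nsmul_eq_mul]
  congr 2
  rw [Nat.card_eq_fintype_card, Fintype.card_subtype]

lemma eq_of_Om {f h : G → ℂ} (hf : IsCl f) (hh : IsCl h)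
    (H : ∀ χ : G → ℂ, IsIrr χ → Om f χ = Om h χ) : f = h := by
  have h1 : (fun g : G => f g⁻¹ - h g⁻¹) = 0 := by
    apply IC.class_eq_zero
    · intro g y
      have e : (y * g * y⁻¹)⁻¹ = y * g⁻¹ * y⁻¹ := by group
      change f (y * g * y⁻¹)⁻¹ - h (y * g * y⁻¹)⁻¹ = f g⁻¹ - h g⁻¹
      rw [e, hf, hh]
    · intro χ hχ
      have hχ' : IsIrr χ := hχ
      have h2 := H χ hχ'
      unfold Om at h2
      rw [div_left_inj' hχ'.one_ne] at h2
      unfold IC.B
      have h3 : ∑ g : G, (fun g : G => f g⁻¹ - h g⁻¹) g * χ g⁻¹ = ∑ g : G, (f g - h g) * χ g :=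
        Fintype.sum_equiv (Equiv.inv G) _ _ fun g => by simp
      rw [h3]
      simp only [sub_mul, Finset.sum_sub_distrib]
      rw [h2, sub_self, mul_zero]
  funext g
  have h2 := congrFun h1 g⁻¹
  simp only [inv_inv, Pi.zero_apply] at h2
  exact sub_eq_zero.mp h2

lemma mem_Irr {χ : G → ℂ} : χ ∈ IC.Irr G ↔ IsIrr χ := IC.mem_Irr

lemma irr_orth {χ ψ : G → ℂ} (h1 : IsIrr χ) (h2 : IsIrr ψ) :
    (Nat.card G : ℂ)⁻¹ * ∑ g : G, χ g * ψ g⁻¹ = if χ = ψ then 1 else 0 := IC.B_irr h1 h2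

lemma blockCoeff_eq {B : Set (G → ℂ)} (hB : ∀ χ ∈ B, IsIrr χ) (x : G) :
    blockCoeff B x = (Nat.card G : ℂ)⁻¹ * ∑ χ ∈ (IC.Irr G).filter (· ∈ B), χ 1 * χ x⁻¹ := by
  unfold blockCoeff
  congr 1
  apply finsum_mem_eq_sum_of_inter_support_eq
  ext χ
  simp only [Set.mem_inter_iff, Finset.coe_filter, Set.mem_ofPred_eq, mem_Irr]
  constructor
  · rintro ⟨h1, h2⟩
    exact ⟨⟨hB χ h1, h1⟩, h2⟩
  · rintro ⟨⟨_, h1⟩, h2⟩
    exact ⟨h1, h2⟩

lemma blockCoeff_cl {B : Set (G → ℂ)} (hB : ∀ χ ∈ B, IsIrr χ) : IsCl (blockCoeff B) := by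
  intro g y
  rw [blockCoeff_eq hB, blockCoeff_eq hB]
  congr 1
  refine Finset.sum_congr rfl fun χ hχ => ?_
  have e : (y * g * y⁻¹)⁻¹ = y * g⁻¹ * y⁻¹ := by group
  rw [e, (mem_Irr.mp (Finset.mem_filter.mp hχ).1).conj]

lemma Om_blockCoeff {B : Set (G → ℂ)} (hB : ∀ χ ∈ B, IsIrr χ) {ψ : G → ℂ} (hψ : IsIrr ψ) :
    Om (blockCoeff B) ψ = if ψ ∈ B then 1 else 0 := by
  unfold Om
  have h1 : ∑ g, blockCoeff B g * ψ g = ∑ χ ∈ (IC.Irr G).filter (· ∈ B),
      χ 1 * ((Nat.card G : ℂ)⁻¹ * ∑ g : G, ψ g * χ g⁻¹) := by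
    simp only [blockCoeff_eq hB, Finset.mul_sum, Finset.sum_mul]
    rw [Finset.sum_comm]
    refine Finset.sum_congr rfl fun χ _ => Finset.sum_congr rfl fun g _ => ?_
    ring
  rw [h1, Finset.sum_congr rfl (g := fun χ => χ 1 * if ψ = χ then 1 else 0) (fun χ hχ => by
    rw [irr_orth hψ (mem_Irr.mp (Finset.mem_filter.mp hχ).1)])]
  simp only [mul_ite, mul_one, mul_zero, Finset.sum_ite_eq, Finset.mem_filter, mem_Irr, hψ,
    true_and]
  split_ifs
  · exact div_self hψ.one_ne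
  · exact zero_div _

section block

variable {O : ValuationSubring ℂ} {B : Set (G → ℂ)}

lemma IsBlock.irr (h : IsBlock O B) : ∀ χ ∈ B, IsIrr χ := by
  obtain ⟨χ₀, _, rfl⟩ := h
  exact fun χ hχ => hχ.1

lemma IsBlock.nonempty (h : IsBlock O B) : ∃ χ, χ ∈ B := by
  obtain ⟨χ₀, h0, rfl⟩ := h
  exact ⟨χ₀, h0, fun x => by rw [sub_self]; exact O.nonunits.zero_mem⟩

lemma IsBlock.red_eq (h : IsBlock O B) {χ ψ : G → ℂ} (hχ : χ ∈ B) (hψ : ψ ∈ B) (x : G) :
    red O (omega χ x) = red O (omega ψ x) := by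
  have h1 := h.irr χ hχ
  have h2 := h.irr ψ hψ
  obtain ⟨χ₀, h0, rfl⟩ := h
  rw [(red_eq_iff (h1.omega_mem O x) (h0.omega_mem O x)).mpr (hχ.2 x),
    (red_eq_iff (h2.omega_mem O x) (h0.omega_mem O x)).mpr (hψ.2 x)]

lemma IsBlock.exists_ne (h : IsBlock O B) {χ ψ : G → ℂ} (hχ : χ ∈ B) (hψ : IsIrr ψ) (hψ' : ψ ∉ B) :
    ∃ x, red O (omega χ x) ≠ red O (omega ψ x) := by
  by_contra hcon
  push Not at hcon
  have h1 := h.irr χ hχ
  apply hψ'
  obtain ⟨χ₀, h0, rfl⟩ := h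
  refine ⟨hψ, fun x => ?_⟩
  rw [← red_eq_iff (hψ.omega_mem O x) (h0.omega_mem O x), ← hcon x]
  exact (red_eq_iff (h1.omega_mem O x) (h0.omega_mem O x)).mpr (hχ.2 x)

lemma Om_mem_one {χ : G → ℂ} (hχ : IsIrr χ) (c : ℂ) (x : G) :
    Om (fun g => ind x g - c * dl g) χ = omega χ x - c := by
  rw [Om_sub, Om_smul, Om_ind hχ, Om_dl hχ, mul_one]

/-- first step: an integral central element vanishing outside the block -/
lemma step1 (h : IsBlock O B) (T : Finset (G → ℂ)) (hT : ∀ ψ ∈ T, IsIrr ψ ∧ ψ ∉ B) :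
    ∃ z : G → ℂ, IsCl z ∧ (∀ g, z g ∈ O) ∧ (∀ ψ ∈ T, Om z ψ = 0) ∧
      ∀ χ ∈ B, red O (Om z χ) ≠ 0 := by
  induction T using Finset.induction_on with
  | empty =>
    exact ⟨dl, dl_cl, dl_mem O, by simp, fun χ hχ => by
      rw [Om_dl (h.irr χ hχ), red_one]; exact one_ne_zero⟩
  | insert a s ha ih =>
    obtain ⟨z, hz1, hz2, hz3, hz4⟩ := ih fun ψ hψ => hT ψ (Finset.mem_insert_of_mem hψ)
    obtain ⟨ha1, ha2⟩ := hT a (Finset.mem_insert_self a s)
    obtain ⟨χ₁, hχ₁⟩ := h.nonempty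
    obtain ⟨x, hx⟩ := h.exists_ne hχ₁ ha1 ha2
    have hcl : IsCl (fun g : G => ind x g - omega a x * dl g) := by
      intro g y
      change ind x (y * g * y⁻¹) - omega a x * dl (y * g * y⁻¹) = ind x g - omega a x * dl g
      rw [ind_cl x g y, dl_cl g y]
    have hmem : ∀ g : G, ind x g - omega a x * dl g ∈ O := fun g =>
      sub_mem' (ind_mem O x g) (O.mul_mem _ _ (ha1.omega_mem O x) (dl_mem O g))
    refine ⟨conv z (fun g => ind x g - omega a x * dl g), hz1.conv hcl, conv_mem hz2 hmem, ?_, ?_⟩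
    · intro ψ hψ
      rw [Om_conv (hT ψ hψ).1 hz1 hcl]
      rcases Finset.mem_insert.mp hψ with rfl | hψ
      · rw [Om_mem_one ha1, sub_self, mul_zero]
      · rw [hz3 ψ hψ, zero_mul]
    · intro χ hχ
      have hχi := h.irr χ hχ
      have h1 : Om z χ ∈ O := by
        by_contra hcon
        exact hz4 χ hχ (by rw [red, dif_neg hcon])
      rw [Om_conv hχi hz1 hcl, Om_mem_one hχi,
        red_mul h1 (sub_mem' (hχi.omega_mem O x) (ha1.omega_mem O x)),
        red_sub (hχi.omega_mem O x) (ha1.omega_mem O x)]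
      refine mul_ne_zero (hz4 χ hχ) (sub_ne_zero.mpr ?_)
      rw [h.red_eq hχ hχ₁]
      exact hx

/-- second step -/
lemma step2 (h : IsBlock O B) (T : Finset (G → ℂ)) (hT : ∀ χ ∈ T, χ ∈ B) :
    ∃ (y : G → ℂ) (c : ℂ), IsCl y ∧ (∀ g, y g ∈ O) ∧ red O c ≠ 0 ∧ (∀ χ ∈ T, Om y χ = 0) ∧
      ∀ ψ, IsIrr ψ → ψ ∉ B → Om y ψ = c := by
  obtain ⟨z, hz1, hz2, hz3, hz4⟩ := step1 h ((IC.Irr G).filter (· ∉ B)) (by
    intro ψ hψ
    rw [Finset.mem_filter, mem_Irr] at hψ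
    exact hψ)
  induction T using Finset.induction_on with
  | empty =>
    exact ⟨dl, 1, dl_cl, dl_mem O, by rw [red_one]; exact one_ne_zero, by simp,
      fun ψ hψ _ => Om_dl hψ⟩
  | insert a s ha ih =>
    obtain ⟨y, c, hy1, hy2, hc, hy3, hy4⟩ := ih fun ψ hψ => hT ψ (Finset.mem_insert_of_mem hψ)
    have haB := hT a (Finset.mem_insert_self a s)
    have h1 : Om z a ∈ O := by
      by_contra hcon
      exact hz4 a haB (by rw [red, dif_neg hcon])
    have hcO := (inv_mem_of_red_ne hc).1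
    have hcl : IsCl (fun g : G => z g - Om z a * dl g) := by
      intro g y
      change z (y * g * y⁻¹) - Om z a * dl (y * g * y⁻¹) = z g - Om z a * dl g
      rw [hz1 g y, dl_cl g y]
    have hmem : ∀ g : G, z g - Om z a * dl g ∈ O := fun g =>
      sub_mem' (hz2 g) (O.mul_mem _ _ h1 (dl_mem O g))
    have hOm : ∀ ψ, IsIrr ψ → Om (fun g : G => z g - Om z a * dl g) ψ = Om z ψ - Om z a := by
      intro ψ hψ
      rw [Om_sub, Om_smul, Om_dl hψ, mul_one]
    refine ⟨conv y (fun g => z g - Om z a * dl g), c * (- Om z a), hy1.conv hcl,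
      conv_mem hy2 hmem, ?_, ?_, ?_⟩
    · rw [red_mul hcO (O.neg_mem _ h1), red_neg h1]
      exact mul_ne_zero hc (neg_ne_zero.mpr (hz4 a haB))
    · intro χ hχ
      have hχi := h.irr χ (hT χ hχ)
      rw [Om_conv hχi hy1 hcl, hOm χ hχi]
      rcases Finset.mem_insert.mp hχ with rfl | hχ
      · rw [sub_self, mul_zero]
      · rw [hy3 χ hχ, zero_mul]
    · intro ψ hψ hψB
      rw [Om_conv hψ hy1 hcl, hOm ψ hψ, hy4 ψ hψ hψB, hz3 ψ (by
        rw [Finset.mem_filter, mem_Irr]; exact ⟨hψ, hψB⟩), zero_sub]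

/-- the block idempotent has `p`-integral coefficients -/
theorem blockCoeff_mem (h : IsBlock O B) (g : G) : blockCoeff B g ∈ O := by
  obtain ⟨y, c, hy1, hy2, hc, hy3, hy4⟩ := step2 h ((IC.Irr G).filter (· ∈ B)) (by
    intro ψ hψ
    rw [Finset.mem_filter] at hψ
    exact hψ.2)
  obtain ⟨hcO, hciO, hc0⟩ := inv_mem_of_red_ne hc
  have key : blockCoeff B = fun g => dl g - c⁻¹ * y g := by
    apply eq_of_Om (blockCoeff_cl h.irr)
    · intro g x
      change dl (x * g * x⁻¹) - c⁻¹ * y (x * g * x⁻¹) = dl g - c⁻¹ * y g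
      rw [hy1 g x, dl_cl g x]
    · intro χ hχ
      rw [Om_blockCoeff h.irr hχ, Om_sub, Om_smul, Om_dl hχ]
      split_ifs with hB
      · rw [hy3 χ (by rw [Finset.mem_filter, mem_Irr]; exact ⟨hχ, hB⟩), mul_zero, sub_zero]
      · rw [hy4 χ hχ hB, inv_mul_cancel₀ hc0, sub_self]
  rw [key]
  exact sub_mem' (dl_mem O g) (O.mul_mem _ _ hciO (hy2 g))

end block

end Pool.Agent.H254R3.IN
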