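import Pool.Agent.H254R3.IN.Chars

set_option linter.style.haveILetI false

open scoped BigOperators Classical TensorProduct
open Representation

noncomputable section

namespace Pool.Agent.H254R3.IN

lemma exists_fixed' {p : ℕ} [hp : Fact p.Prime] {D : Type} [Group D] [Finite D] (hD : IsPGroup p D)
    {A : Type} [AddCommGroup A] [DistribMulAction D A] [Module (ZMod p) A]
    (hpA : ∀ a : A, p • a = 0) [Nontrivial A] :
    ∃ a : A, a ≠ 0 ∧ ∀ d : D, d • a = a := by
  obtain ⟨a, ha⟩ := exists_ne (0 : A)
  set S : Submodule (ZMod p) A := Submodule.span (ZMod p) (Set.range fun d : D => d • a) with hS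
  have hstab : ∀ (d : D) (s : A), s ∈ S → d • s ∈ S := by
    intro d s hs
    induction hs using Submodule.span_induction with
    | mem x hx =>
      obtain ⟨e, rfl⟩ := hx
      apply Submodule.subset_span
      exact ⟨d * e, by simp [mul_smul]⟩
    | zero => rw [smul_zero]; exact S.zero_mem
    | add x y _ _ hx hy => rw [smul_add]; exact S.add_mem hx hy
    | smul c x _ hx =>
      have h1 : d • (c • x) = c • (d • x) := by
        have := ((DistribSMul.toAddMonoidHom A d).toZModLinearMap p).map_smul c x
        exact this
      rw [h1]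
      exact S.smul_mem c hx
  letI : MulAction D S :=
    { smul := fun d s => ⟨d • (s : A), hstab d s s.2⟩
      one_smul := fun s => Subtype.ext (one_smul D (s : A))
      mul_smul := fun d e s => Subtype.ext (mul_smul d e (s : A)) }
  haveI : FiniteDimensional (ZMod p) S := by
    rw [hS]
    exact FiniteDimensional.span_of_finite (ZMod p) (Set.finite_range _)
  haveI : Finite S := Module.finite_of_finite (ZMod p)
  have haS : a ∈ S := Submodule.subset_span ⟨1, by simp⟩
  have hdvd : p ∣ Nat.card S := by
    have h1 : addOrderOf (⟨a, haS⟩ : S) = p := by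
      apply addOrderOf_eq_prime
      · exact Subtype.ext (hpA a)
      · intro h
        exact ha (congrArg Subtype.val h)
    exact (dvd_of_eq h1.symm).trans (addOrderOf_dvd_natCard _)
  obtain ⟨b, hb, hb0⟩ := hD.exists_fixed_point_of_prime_dvd_card_of_fixed_point S hdvd
    (a := (0 : S)) (by
      rw [MulAction.mem_fixedPoints]
      intro d
      exact Subtype.ext (smul_zero d))
  refine ⟨b, fun h => hb0 (Subtype.ext h.symm), fun d => ?_⟩
  exact congrArg Subtype.val (hb d)

/-- a `p`-group acting on a nonzero abelian group of exponent `p` has a nonzero fixed point -/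
lemma exists_fixed {p : ℕ} [hp : Fact p.Prime] {D : Type} [Group D] [Finite D] (hD : IsPGroup p D)
    {A : Type} [AddCommGroup A] [DistribMulAction D A] (hpA : ∀ a : A, p • a = 0) [Nontrivial A] :
    ∃ a : A, a ≠ 0 ∧ ∀ d : D, d • a = a := by
  letI : Module (ZMod p) A := AddCommGroup.zmodModule hpA
  exact exists_fixed' hD hpA

/-- modular reduction of an irreducible character: a module in characteristic `p` on which the
centre acts through the reduced central character, with a vector fixed by a given `p`-subgroup -/
theorem exists_mod (O : ValuationSubring ℂ) {p : ℕ} [hp : Fact p.Prime]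
    (hpO : (p : ℂ) ∈ O.nonunits) {N : Type} [Group N] [Fintype N] (D : Subgroup N)
    (hD : IsPGroup p D) (χ : N → ℂ) (hχ : IsIrr χ) :
    ∃ (Q : Type) (_ : AddCommGroup Q) (_ : Module (RF O) Q) (τ : N →* Module.End (RF O) Q) (w : Q),
      w ≠ 0 ∧ (∀ d ∈ D, τ d w = w) ∧
      ∀ f : N → ℂ, (∀ n, f n ∈ O) → (∀ g y, f (y * g * y⁻¹) = f g) →
        (∑ g, f g * χ g) / χ 1 ∈ O ∧
        ∑ g, red O (f g) • τ g w = red O ((∑ g, f g * χ g) / χ 1) • w := by
  obtain ⟨V, _, _, _, ρ, hr, rfl⟩ := hχ
  haveI := irr_nontrivial ρ hr
  obtain ⟨v, hv⟩ := exists_ne (0 : V)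
  set M : Submodule O V := Submodule.span O (Set.range fun g : N => ρ g v) with hM
  have hvM : v ∈ M := Submodule.subset_span ⟨1, by simp⟩
  have hstab : ∀ (g : N) (x : V), x ∈ M → ρ g x ∈ M := by
    intro g x hx
    induction hx using Submodule.span_induction with
    | mem x hx =>
      obtain ⟨e, rfl⟩ := hx
      apply Submodule.subset_span
      exact ⟨g * e, by simp [map_mul]⟩
    | zero => rw [map_zero]; exact M.zero_mem
    | add x y _ _ hx hy => rw [map_add]; exact M.add_mem hx hy
    | smul c x _ hx =>
      have h1 : ρ g (c • x) = c • (ρ g x) := by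
        have : (c • x : V) = (c : ℂ) • x := rfl
        rw [this, map_smul]
        rfl
      rw [h1]
      exact M.smul_mem c hx
  haveI hfin : Module.Finite O M := by
    rw [hM]
    exact Module.Finite.span_of_finite O (Set.finite_range _)
  -- the action on M
  let σ : N →* Module.End O M :=
    { toFun := fun g => 
        { toFun := fun x => ⟨ρ g x, hstab g x x.2⟩
          map_add' := fun x y => Subtype.ext (by simp)
          map_smul' := fun c x => Subtype.ext (by
            have h1 : (((c • x : M) : V)) = (c : ℂ) • (x : V) := rfl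
            simp only [h1, map_smul]
            rfl) }
      map_one' := by
        ext x
        simp
      map_mul' := fun a b => by
        ext x
        simp }
  have hσ : ∀ g x, ((σ g x : M) : V) = ρ g x := fun g x => rfl
  let Q := RF O ⊗[O] M
  let τ : N →* Module.End (RF O) Q :=
    { toFun := fun g => (σ g).baseChange (RF O)
      map_one' := by
        rw [map_one]
        exact LinearMap.baseChange_id
      map_mul' := fun a b => by
        rw [map_mul]
        exact LinearMap.baseChange_comp _ _ }
  haveI hMn : Nontrivial M := ⟨⟨⟨v, hvM⟩, 0, fun h => hv (congrArg Subtype.val h)⟩⟩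
  haveI hQn : Nontrivial Q := by
    by_contra h
    rw [not_nontrivial_iff_subsingleton] at h
    rw [IsLocalRing.subsingleton_tensorProduct] at h
    exact not_subsingleton M h
  haveI := charP_RF hpO
  letI : DistribMulAction D Q :=
    { smul := fun d q => τ d q
      one_smul := fun q => by
        change τ ((1 : D) : N) q = q
        simp
      mul_smul := fun d e q => by
        change τ ((d * e : D) : N) q = τ d (τ e q)
        simp
      smul_zero := fun d => by
        change τ d 0 = 0
        simp
      smul_add := fun d x y => by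
        change τ d (x + y) = τ d x + τ d y
        simp }
  obtain ⟨w, hw0, hw⟩ := exists_fixed (p := p) (D := D) (A := Q) hD (by
    intro q
    rw [← Nat.cast_smul_eq_nsmul (RF O), CharP.cast_eq_zero, zero_smul])
  refine ⟨Q, inferInstance, inferInstance, τ, w, hw0, fun d hd => hw ⟨d, hd⟩, ?_⟩
  intro f hf hcl
  have hsc := class_scalar ρ hr f hcl
  set c : ℂ := (∑ g, f g * ρ.character g) / ρ.character 1 with hc
  have hcO : c ∈ O := by
    apply mem_of_isIntegral'
    apply isIntegral_of_smul_mem_submodule (M := V) M (fun h => hv (by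
      have := hvM
      rw [h] at this
      simpa using this)) (Module.Finite.iff_fg.mp hfin) c
    intro x hx
    have h1 : c • x = ∑ g, f g • ρ g x := by
      have h2 := congrArg (fun S : V →ₗ[ℂ] V => S x) hsc
      simp only [LinearMap.sum_apply, LinearMap.smul_apply, LinearMap.id_apply] at h2
      exact h2.symm
    rw [h1]
    apply sum_mem
    intro g _
    exact M.smul_mem (⟨f g, hf g⟩ : O) (hstab g x hx)
  refine ⟨hcO, ?_⟩
  -- identity on M
  have hM1 : ∑ g, (⟨f g, hf g⟩ : O) • σ g = (⟨c, hcO⟩ : O) • (LinearMap.id : M →ₗ[O] M) := by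
    ext x
    have h2 := congrArg (fun S : V →ₗ[ℂ] V => S x) hsc
    simp only [LinearMap.sum_apply, LinearMap.smul_apply, LinearMap.id_apply] at h2
    simp only [LinearMap.sum_apply, LinearMap.smul_apply, LinearMap.id_apply,
      Submodule.coe_sum, Submodule.coe_smul]
    exact h2
  have hred : ∀ (x : ℂ) (hx : x ∈ O) (q : Q), red O x • q = (⟨x, hx⟩ : O) • q := by
    intro x hx q
    rw [red_of_mem hx]
    exact (algebraMap_smul (RF O) (⟨x, hx⟩ : O) q)
  have h3 : ∀ q : Q, ∑ g, red O (f g) • τ g q = red O c • q := by
    intro q
    induction q using TensorProduct.induction_on with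
    | zero => simp
    | tmul a x =>
      have h4 := congrArg (fun S : M →ₗ[O] M => a ⊗ₜ[O] S x) hM1
      simp only [LinearMap.sum_apply, LinearMap.smul_apply, LinearMap.id_apply,
        TensorProduct.tmul_sum, TensorProduct.tmul_smul] at h4
      rw [hred c hcO, ← h4]
      refine Finset.sum_congr rfl fun g _ => ?_
      rw [hred (f g) (hf g)]
      rfl
    | add x y hx hy =>
      rw [smul_add, ← hx, ← hy, ← Finset.sum_add_distrib]
      refine Finset.sum_congr rfl fun g _ => ?_
      rw [map_add, smul_add]
  exact h3 w

end Pool.Agent.H254R3.IN
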