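import Pool.Agent.H254R3.IN.Normal

set_option linter.style.haveILetI false
set_option linter.unusedSectionVars false

open scoped BigOperators Classical
open Pool.Agent.Helper884 Representation

noncomputable section

namespace Pool.Agent.H254R3.IN

variable {N : Type} [Group N] [Fintype N]

section

variable {D : Subgroup N} [hDn : D.Normal]

/-- averaging over a normal subgroup -/
lemma avg {θ : N → ℂ} (hθ : IsIrr θ) : ∃ c : ℂ, (c = 0 ∨ c = Nat.card D) ∧
    ∀ g : N, ∑ x, (if g⁻¹ * x ∈ D then θ x else 0) = c * θ g := by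
  set f : N → ℂ := fun x => if x ∈ D then 1 else 0 with hf
  have hcl : IsCl f := by
    intro g y
    have : y * g * y⁻¹ ∈ D ↔ g ∈ D := by
      constructor
      · intro h
        have := hDn.conj_mem _ h y⁻¹
        simpa [mul_assoc] using this
      · intro h
        exact hDn.conj_mem _ h y
    simp only [hf, this]
  have hconv : conv f f = fun g => (Nat.card D : ℂ) * f g := by
    funext g
    unfold conv
    simp only [hf, ite_mul, one_mul, zero_mul]
    by_cases hg : g ∈ D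
    · rw [if_pos hg, mul_one]
      have : ∀ x : N, (if x ∈ D then (if x⁻¹ * g ∈ D then (1 : ℂ) else 0) else 0) =
          if x ∈ D then 1 else 0 := by
        intro x
        by_cases hx : x ∈ D
        · rw [if_pos hx, if_pos hx, if_pos (D.mul_mem (D.inv_mem hx) hg)]
        · rw [if_neg hx, if_neg hx]
      rw [Finset.sum_congr rfl (fun x _ => this x), ← Finset.sum_filter, Finset.sum_const,
        nsmul_eq_mul, mul_one, Nat.card_eq_fintype_card, Fintype.card_subtype]
    · rw [if_neg hg, mul_zero]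
      apply Finset.sum_eq_zero
      intro x _
      by_cases hx : x ∈ D
      · rw [if_pos hx, if_neg]
        intro h
        apply hg
        have := D.mul_mem hx h
        simpa using this
      · rw [if_neg hx]
  have hOm : Om f θ * Om f θ = Nat.card D * Om f θ := by
    rw [← Om_conv hθ hcl hcl, hconv, Om_smul]
  obtain ⟨V, _, _, _, ρ, hr, rfl⟩ := hθ
  refine ⟨Om f ρ.character, ?_, ?_⟩
  · by_cases h0 : Om f ρ.character = 0
    · exact Or.inl h0
    · exact Or.inr (mul_right_cancel₀ h0 hOm)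
  · intro g
    have h1 := class_scalar ρ hr f hcl
    have h2 := congrArg (fun S : V →ₗ[ℂ] V => LinearMap.trace ℂ V (ρ g * S)) h1
    simp only [Finset.mul_sum, mul_smul_comm, map_sum, map_smul, smul_eq_mul] at h2
    have h3 : (ρ g) * (LinearMap.id : V →ₗ[ℂ] V) = ρ g := mul_one _
    rw [h3] at h2
    have h4 : ∑ x, (if g⁻¹ * x ∈ D then ρ.character x else 0) =
        ∑ x, f x * (LinearMap.trace ℂ V) (ρ g * ρ x) := by
      refine Fintype.sum_equiv (Equiv.mulLeft g⁻¹) _ _ fun x => ?_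
      simp only [Equiv.coe_mulLeft, hf, ite_mul, one_mul, zero_mul]
      rw [← map_mul, mul_inv_cancel_left]
      rfl
    rw [h4, h2]
    rfl

end

/-- coset sums of the block idempotent -/
def TT (D : Subgroup N) (b : Set (N → ℂ)) (n : N) : ℂ :=
  ∑ g, (if n⁻¹ * g ∈ D then blockCoeff b g else 0)

section normal

variable {O : ValuationSubring ℂ} {p : ℕ} [hp : Fact p.Prime] (hpO : (p : ℂ) ∈ O.nonunits)
  {D : Subgroup N} [hDn : D.Normal] (hD : IsPGroup p D)

lemma TT_mem {b : Set (N → ℂ)} (hb : IsBlock O b) (n : N) : TT D b n ∈ O := by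
  apply sum_mem
  intro g _
  split_ifs
  · exact blockCoeff_mem hb g
  · exact O.zero_mem

lemma TT_coset {b : Set (N → ℂ)} {n m : N} (h : n⁻¹ * m ∈ D) : TT D b n = TT D b m := by
  unfold TT
  refine Finset.sum_congr rfl fun g _ => ?_
  have : n⁻¹ * g ∈ D ↔ m⁻¹ * g ∈ D := by
    have e : n⁻¹ * g = (n⁻¹ * m) * (m⁻¹ * g) := by group
    rw [e]
    exact D.mul_mem_cancel_left h
  simp only [this]

/-- the coefficient `a_θ` -/
def aa (D : Subgroup N) [D.Normal] (θ : N → ℂ) : ℂ :=
  if h : IsIrr θ then θ 1 * (avg (D := D) h).choose / Nat.card N else 0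

lemma aa_cases {θ : N → ℂ} (h : IsIrr θ) : aa D θ = 0 ∨ aa D θ = uu D θ := by
  unfold aa uu
  rw [dif_pos h]
  rcases (avg (D := D) h).choose_spec.1 with h1 | h1
  · left; rw [h1]; simp
  · right; rw [h1]

lemma TT_eq {b : Set (N → ℂ)} (hb : ∀ χ ∈ b, IsIrr χ) (n : N) :
    TT D b n = ∑ θ ∈ (IC.Irr N).filter (· ∈ b), aa D θ * θ n⁻¹ := by
  unfold TT
  have h1 : ∀ g : N, (if n⁻¹ * g ∈ D then blockCoeff b g else 0) =
      ∑ θ ∈ (IC.Irr N).filter (· ∈ b), (Nat.card N : ℂ)⁻¹ * θ 1 *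
        (if n⁻¹ * g ∈ D then θ g⁻¹ else 0) := by
    intro g
    by_cases h : n⁻¹ * g ∈ D
    · simp only [if_pos h]
      rw [blockCoeff_eq hb, Finset.mul_sum]
      refine Finset.sum_congr rfl fun θ _ => ?_
      ring
    · simp only [if_neg h, mul_zero, Finset.sum_const_zero]
  rw [Finset.sum_congr rfl (fun g _ => h1 g), Finset.sum_comm]
  refine Finset.sum_congr rfl fun θ hθ => ?_
  rw [← Finset.mul_sum]
  have hirr : IsIrr θ := mem_Irr.mp (Finset.mem_filter.mp hθ).1
  have h2 := (avg (D := D) hirr).choose_spec.2 n⁻¹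
  have h3 : ∑ x, (if n⁻¹ * x ∈ D then θ x⁻¹ else 0) = ∑ x, (if n⁻¹⁻¹ * x ∈ D then θ x else 0) := by
    refine Fintype.sum_equiv (Equiv.inv N) _ _ fun x => ?_
    simp only [Equiv.inv_apply, inv_inv]
    have : n⁻¹ * x ∈ D ↔ n * x⁻¹ ∈ D := by
      have e1 : n * x⁻¹ = x * (n⁻¹ * x)⁻¹ * x⁻¹ := by group
      rw [e1]
      constructor
      · intro h
        exact hDn.conj_mem _ (D.inv_mem h) x
      · intro h
        have := D.inv_mem (hDn.conj_mem _ h x⁻¹)
        simpa [mul_assoc] using this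
    simp only [this]
  rw [h3, h2]
  unfold aa
  rw [dif_pos hirr]
  ring

lemma TT_cl {b : Set (N → ℂ)} (hb : ∀ χ ∈ b, IsIrr χ) : IsCl (TT D b) := by
  intro g y
  rw [TT_eq hb, TT_eq hb]
  refine Finset.sum_congr rfl fun χ hχ => ?_
  have e : (y * g * y⁻¹)⁻¹ = y * g⁻¹ * y⁻¹ := by group
  rw [e, (mem_Irr.mp (Finset.mem_filter.mp hχ).1).conj]

lemma inv_centralizer {n : N} (hn : n ∈ Subgroup.centralizer (D : Set N)) :
    n⁻¹ ∈ Subgroup.centralizer (D : Set N) := Subgroup.inv_mem _ hn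

lemma kk_inv (D : Subgroup N) (n : N) : kk D n⁻¹ = kk D n := by
  unfold kk
  have : Subgroup.centralizer ({n⁻¹} : Set N) = Subgroup.centralizer ({n} : Set N) := by
    ext x
    simp only [Subgroup.mem_centralizer_iff, Set.mem_singleton_iff, forall_eq]
    constructor
    · intro h
      have := congrArg (fun z => n * z * n) h
      simpa [mul_assoc] using this.symm
    · intro h
      have := congrArg (fun z => n⁻¹ * z * n⁻¹) h
      simpa [mul_assoc] using this.symm
  rw [this]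

/-- the constant `A = ∑ a_θ u_θ` -/
def AA (O : ValuationSubring ℂ) (D : Subgroup N) [D.Normal] (b : Set (N → ℂ)) : RF O :=
  ∑ θ ∈ (IC.Irr N).filter (· ∈ b), red O (aa D θ) * red O (uu D θ)

lemma red_TT {b : Set (N → ℂ)} (hb : IsBlock O b) (hu : ∀ θ ∈ b, uu D θ ∈ O) {χ : N → ℂ}
    (hχ : χ ∈ b) {n : N} (hn : n ∈ Subgroup.centralizer (D : Set N)) :
    red O (TT D b n) = (kk D n : RF O) * red O (omega χ n⁻¹) * AA O D b := by
  have haa : ∀ θ ∈ (IC.Irr N).filter (· ∈ b), IsIrr θ ∧ θ ∈ b ∧ aa D θ ∈ O := by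
    intro θ hθ
    rw [Finset.mem_filter, mem_Irr] at hθ
    refine ⟨hθ.1, hθ.2, ?_⟩
    rcases aa_cases (D := D) hθ.1 with h | h
    · rw [h]; exact O.zero_mem
    · rw [h]; exact hu θ hθ.2
  rw [TT_eq hb.irr, red_sum _ _ (fun θ hθ =>
    O.mul_mem _ _ (haa θ hθ).2.2 ((haa θ hθ).1.val_mem O _)), AA, Finset.mul_sum]
  refine Finset.sum_congr rfl fun θ hθ => ?_
  obtain ⟨h1, h2, h3⟩ := haa θ hθ
  rw [red_mul h3 (h1.val_mem O _), val_eq_kk h1 (IsConj.refl n⁻¹) (inv_centralizer hn),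
    kk_inv, red_mul (O.mul_mem _ _ (h1.omega_mem O _) (hu θ h2)) (natCast_mem' _),
    red_mul (h1.omega_mem O _) (hu θ h2), red_natCast, hb.red_eq h2 hχ]
  ring

include hpO hD

lemma red_TT_zero {b : Set (N → ℂ)} (hb : IsBlock O b) {n : N}
    (hn : ∀ g ∈ Subgroup.centralizer (D : Set N), n⁻¹ * g ∉ D) : red O (TT D b n) = 0 := by
  unfold TT
  have hm : ∀ g : N, (if n⁻¹ * g ∈ D then blockCoeff b g else 0) ∈ O := by
    intro g
    split_ifs
    · exact blockCoeff_mem hb g
    · exact O.zero_mem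
  rw [red_sum _ _ (fun g _ => hm g), sum_fixed_conj hpO hD _ (by
    intro d hd g
    have h1 : n⁻¹ * (d * g * d⁻¹) ∈ D ↔ n⁻¹ * g ∈ D := by
      have e : n⁻¹ * (d * g * d⁻¹) = (n⁻¹ * d * n) * (n⁻¹ * g) * d⁻¹ := by group
      rw [e, D.mul_mem_cancel_right (D.inv_mem hd), D.mul_mem_cancel_left]
      have := hDn.conj_mem d hd n⁻¹
      simpa using this
    simp only [h1, blockCoeff_cl hb.irr g d])]
  apply Finset.sum_eq_zero
  intro g hg
  rw [if_neg (hn g (Finset.mem_filter.mp hg).2), red_zero]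

end normal

end Pool.Agent.H254R3.IN
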