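import Pool.Agent.H254R3.IN.NonVan

set_option linter.style.haveILetI false
set_option linter.unusedSectionVars false

open scoped BigOperators Classical
open Pool.Agent.Helper884 Representation

noncomputable section

namespace Pool.Agent.H254R3.IN

variable {N : Type} [Group N] [Fintype N]

variable {O : ValuationSubring ℂ} {p : ℕ} [hp : Fact p.Prime]
  {D : Subgroup N}

lemma coprime_card (hD : IsPGroup p D) {r : ℕ} (hr : ¬ p ∣ r) : Nat.Coprime r (Nat.card D) := by
  obtain ⟨a, ha⟩ := IsPGroup.iff_card.mp hD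
  rw [ha]
  exact Nat.Coprime.pow_right a ((Nat.coprime_comm.mp ((Nat.Prime.coprime_iff_not_dvd hp.out).mpr hr)))

lemma sp_unique (hD : IsPGroup p D) {s t : N} (hs : s ∈ Sp p D) (ht : t ∈ Sp p D)
    (h : s⁻¹ * t ∈ D) : s = t := by
  set d := s⁻¹ * t with hd
  have htd : t = s * d := by rw [hd]; group
  have hcomm : Commute s d := (Subgroup.mem_centralizer_iff.mp hs.2 d h).symm
  set r := orderOf s * orderOf t with hr
  have hpr : ¬ p ∣ r := by
    intro h1
    rcases (hp.out.dvd_mul).mp h1 with h2 | h2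
    · exact hs.1 h2
    · exact ht.1 h2
  have h1 : d ^ r = 1 := by
    have h2 : t ^ r = 1 := by rw [hr, mul_comm, pow_mul, pow_orderOf_eq_one, one_pow]
    have h3 : s ^ r = 1 := by rw [hr, pow_mul, pow_orderOf_eq_one, one_pow]
    rw [htd, hcomm.mul_pow, h3, one_mul] at h2
    exact h2
  have h2 : d ^ Nat.card D = 1 := by
    have := pow_card_eq_one' (x := (⟨d, h⟩ : D))
    exact congrArg Subtype.val this
  have h3 : orderOf d = 1 := by
    have h4 := Nat.dvd_gcd (orderOf_dvd_of_pow_eq_one h1) (orderOf_dvd_of_pow_eq_one h2)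
    rw [coprime_card hD hpr] at h4
    exact Nat.dvd_one.mp h4
  rw [orderOf_eq_one_iff] at h3
  rw [htd, h3, mul_one]

lemma sp_exists [hDn : D.Normal] (hD : IsPGroup p D) {g : N}
    (hg : g ∈ Subgroup.centralizer (D : Set N))
    (hk : ¬ p ∣ kk D g) : ∃ s ∈ Sp p D, g⁻¹ * s ∈ D := by
  set H := Subgroup.centralizer ({g} : Set N) with hH
  have hle : D ≤ H := le_centralizer hg
  have hgH : g ∈ H := by
    rw [hH, Subgroup.mem_centralizer_iff]
    intro y hy
    rw [Set.mem_singleton_iff.mp hy]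
  have hidx : (D.subgroupOf H).index = kk D g := by
    have h1 := Subgroup.card_mul_index (D.subgroupOf H)
    have h2 : Nat.card (D.subgroupOf H) = Nat.card D :=
      Nat.card_congr (Subgroup.subgroupOfEquivOfLe hle).toEquiv
    rw [h2] at h1
    have h3 := kk_mul hg
    rw [← hH, ← h1, mul_comm] at h3
    exact (Nat.eq_of_mul_eq_mul_left (Nat.card_pos) h3).symm
  have hm : g ^ (kk D g) ∈ D := by
    have h1 := Subgroup.pow_index_mem (D.subgroupOf H) (⟨g, hgH⟩ : H)
    rw [hidx, Subgroup.mem_subgroupOf] at h1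
    exact h1
  set m := kk D g with hmdef
  have hco := coprime_card hD hk
  obtain ⟨j, hj1, hj2⟩ := Nat.chineseRemainder hco 1 0
  refine ⟨g ^ j, ⟨?_, Subgroup.pow_mem _ hg j⟩, ?_⟩
  · intro h1
    apply hk
    refine h1.trans (orderOf_dvd_of_pow_eq_one ?_)
    rw [← pow_mul, mul_comm, pow_mul]
    obtain ⟨t, ht⟩ := (Nat.modEq_zero_iff_dvd.mp hj2)
    rw [ht, pow_mul]
    have h3 : (g ^ m) ^ Nat.card D = 1 := by
      have := pow_card_eq_one' (x := (⟨g ^ m, hm⟩ : D))
      exact congrArg Subtype.val this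
    rw [h3, one_pow]
  · have h1 : (m : ℤ) ∣ (j : ℤ) - 1 := by
      have := (Nat.modEq_iff_dvd.mp hj1.symm)
      simpa using this
    obtain ⟨t, ht⟩ := h1
    have h2 : g⁻¹ * g ^ j = g ^ ((j : ℤ) - 1) := by
      rw [zpow_sub_one, zpow_natCast]
      have : Commute g⁻¹ (g ^ j) := (Commute.refl g).inv_left.pow_right j
      exact this.eq
    rw [h2, ht, zpow_mul, zpow_natCast]
    exact D.zpow_mem hm t

lemma sp_conj [hDn : D.Normal] {x y : N} (h : IsConj x y) (hy : y ∈ Sp p D) : x ∈ Sp p D := by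
  obtain ⟨c, rfl⟩ := isConj_iff.mp h.symm
  refine ⟨?_, ?_⟩
  · intro h1
    apply hy.1
    have : orderOf (c * y * c⁻¹) = orderOf y := by
      rw [← MulAut.conj_apply]
      exact (MulAut.conj c).orderOf_eq y
    rwa [this] at h1
  · rw [Subgroup.mem_centralizer_iff]
    intro d hd
    have h6 := Subgroup.mem_centralizer_iff.mp hy.2 (c⁻¹ * d * c) (by
      have := hDn.conj_mem d hd c⁻¹
      simpa using this)
    have h7 : d * (c * y * c⁻¹) = c * ((c⁻¹ * d * c) * y) * c⁻¹ := by group
    rw [h7, h6]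
    group

/-- the key non-vanishing: `A · c = 1` -/
theorem AA_mul_cc (hpO : (p : ℂ) ∈ O.nonunits) [hDn : D.Normal] (hD : IsPGroup p D)
    {b : Set (N → ℂ)} (hb : IsBlock O b) (hu : ∀ θ ∈ b, uu D θ ∈ O) {χ : N → ℂ} (hχ : χ ∈ b) :
    AA O D b * cc O p D χ = 1 := by
  haveI := charP_RF hpO
  have hirr := hb.irr χ hχ
  obtain ⟨Q, _, _, τ, w, hw0, hw, hf⟩ := exists_mod O hpO D hD χ hirr
  -- step C
  obtain ⟨_, h2⟩ := hf (blockCoeff b) (blockCoeff_mem hb) (blockCoeff_cl hb.irr)
  have h3 : (∑ g, blockCoeff b g * χ g) / χ 1 = 1 := by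
    have := Om_blockCoeff hb.irr hirr
    rw [if_pos hχ] at this
    exact this
  rw [h3, red_one, one_smul] at h2
  -- group by cosets
  have hco : ∀ (q : N ⧸ D) (g : N), (QuotientGroup.mk g : N ⧸ D) = q ↔ (Quotient.out q)⁻¹ * g ∈ D := by
    intro q g
    conv_lhs => rw [← QuotientGroup.out_eq' q]
    rw [eq_comm, QuotientGroup.eq]
  have h4 : w = ∑ q : N ⧸ D, red O (TT D b (Quotient.out q)) • τ (Quotient.out q) w := by
    conv_lhs => rw [← h2]
    rw [← Finset.sum_fiberwise Finset.univ (fun g : N => (QuotientGroup.mk g : N ⧸ D))]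
    refine Finset.sum_congr rfl fun q _ => ?_
    simp only [hco]
    rw [Finset.sum_congr rfl (g := fun g => red O (blockCoeff b g) • τ (Quotient.out q) w)
      (fun g hg => by
        rw [coset_trick τ w hw (Quotient.out q) g (Finset.mem_filter.mp hg).2]),
      ← Finset.sum_smul]
    congr 1
    unfold TT
    rw [← Finset.sum_filter, red_sum _ _ (fun g _ => blockCoeff_mem hb g)]
  -- reduce to p-regular elements centralising D
  have h5 : w = ∑ s ∈ Finset.univ.filter (fun s => s ∈ Sp p D), red O (TT D b s) • τ s w := by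
    conv_lhs => rw [h4]
    set G : N ⧸ D → Q := fun q => red O (TT D b (Quotient.out q)) • τ (Quotient.out q) w with hG
    have h6 : ∑ s ∈ Finset.univ.filter (fun s => s ∈ Sp p D), red O (TT D b s) • τ s w =
        ∑ s ∈ Finset.univ.filter (fun s => s ∈ Sp p D), G (QuotientGroup.mk s) := by
      refine Finset.sum_congr rfl fun s _ => ?_
      have h7 : (Quotient.out (QuotientGroup.mk s : N ⧸ D))⁻¹ * s ∈ D := (hco _ _).mp rfl
      rw [hG]
      simp only
      rw [TT_coset h7, coset_trick τ w hw _ s h7]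
    rw [h6, ← Finset.sum_image (f := G) (g := fun s : N => (QuotientGroup.mk s : N ⧸ D))]
    · symm
      apply Finset.sum_subset (Finset.subset_univ _)
      intro q _ hq
      rw [hG]
      simp only
      by_contra hne
      have h8 : red O (TT D b (Quotient.out q)) ≠ 0 := fun h => hne (by rw [h, zero_smul])
      have h9 : ∃ g ∈ Subgroup.centralizer (D : Set N), (Quotient.out q)⁻¹ * g ∈ D := by
        by_contra hcon
        push Not at hcon
        exact h8 (red_TT_zero hpO hD hb hcon)
      obtain ⟨g, hg1, hg2⟩ := h9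
      rw [TT_coset hg2, red_TT hb hu hχ hg1] at h8
      have h10 : ¬ p ∣ kk D g := by
        intro hdvd
        apply h8
        rw [(CharP.cast_eq_zero_iff (RF O) p _).mpr hdvd, zero_mul, zero_mul]
      obtain ⟨s, hs1, hs2⟩ := sp_exists hD hg1 h10
      apply hq
      rw [Finset.mem_image]
      refine ⟨s, Finset.mem_filter.mpr ⟨Finset.mem_univ _, hs1⟩, ?_⟩
      rw [hco]
      have : (Quotient.out q)⁻¹ * s = ((Quotient.out q)⁻¹ * g) * (g⁻¹ * s) := by group
      rw [this]
      exact D.mul_mem hg2 hs2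
    · intro s hs t ht hst
      apply sp_unique hD (Finset.mem_filter.mp hs).2 (Finset.mem_filter.mp ht).2
      exact (QuotientGroup.eq).mp hst
  -- group by classes
  have h6 : w = (∑ K ∈ Finset.univ.filter (fun K : ConjClasses N => ∃ s ∈ Sp p D, IsConj (rep K) s),
      red O (TT D b (rep K)) * red O (omega χ (rep K))) • w := by
    conv_lhs => rw [h5]
    rw [Finset.sum_filter, sum_classes, Finset.sum_smul, Finset.sum_filter]
    refine Finset.sum_congr rfl fun K _ => ?_
    have h7 : (∃ s ∈ Sp p D, IsConj (rep K) s) ↔ rep K ∈ Sp p D := by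
      constructor
      · rintro ⟨s, hs, hc⟩
        exact sp_conj hc hs
      · intro h
        exact ⟨_, h, IsConj.refl _⟩
    obtain ⟨_, h8⟩ := hf (ind (rep K)) (ind_mem O _) (ind_cl _)
    have h9 : (∑ g, ind (rep K) g * χ g) / χ 1 = omega χ (rep K) := Om_ind hirr _
    rw [h9] at h8
    have h10 : ∑ g ∈ Finset.univ.filter (fun g => IsConj (rep K) g), τ g w =
        red O (omega χ (rep K)) • w := by
      rw [← h8, Finset.sum_filter]
      refine Finset.sum_congr rfl fun g _ => ?_
      unfold ind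
      split_ifs
      · rw [red_one, one_smul]
      · rw [red_zero, zero_smul]
    by_cases hK : rep K ∈ Sp p D
    · rw [if_pos (h7.mpr hK), mul_smul, ← h10, Finset.smul_sum]
      refine Finset.sum_congr rfl fun g hg => ?_
      have hc := (Finset.mem_filter.mp hg).2
      rw [if_pos (sp_conj hc.symm hK), (TT_cl hb.irr).isConj hc]
    · rw [if_neg (fun h => hK (h7.mp h))]
      apply Finset.sum_eq_zero
      intro g hg
      have hc := (Finset.mem_filter.mp hg).2
      rw [if_neg (fun h => hK (sp_conj hc h))]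
  have h7 : (∑ K ∈ Finset.univ.filter (fun K : ConjClasses N => ∃ s ∈ Sp p D, IsConj (rep K) s),
      red O (TT D b (rep K)) * red O (omega χ (rep K))) = 1 := by
    have h8 : ((1 : RF O) - ∑ K ∈ Finset.univ.filter (fun K : ConjClasses N =>
        ∃ s ∈ Sp p D, IsConj (rep K) s), red O (TT D b (rep K)) * red O (omega χ (rep K))) • w = 0 := by
      rw [sub_smul, one_smul, ← h6, sub_self]
    rcases smul_eq_zero.mp h8 with h9 | h9
    · exact (sub_eq_zero.mp h9).symm
    · exact absurd h9 hw0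
  rw [← h7, cc, Finset.mul_sum]
  refine Finset.sum_congr rfl fun K hK => ?_
  obtain ⟨s, hs, hc⟩ := (Finset.mem_filter.mp hK).2
  have hK' := sp_conj hc hs
  rw [red_TT hb hu hχ hK'.2]
  ring

/-- consequences: `c ≠ 0` and there is a character of height zero -/
theorem cc_ne_zero (hpO : (p : ℂ) ∈ O.nonunits) [hDn : D.Normal] (hD : IsPGroup p D)
    {b : Set (N → ℂ)} (hb : IsBlock O b) (hu : ∀ θ ∈ b, uu D θ ∈ O) {χ : N → ℂ} (hχ : χ ∈ b) :
    cc O p D χ ≠ 0 ∧ ∃ θ ∈ b, red O (uu D θ) ≠ 0 := by
  have h := AA_mul_cc hpO hD hb hu hχ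
  constructor
  · intro h0
    rw [h0, mul_zero] at h
    exact zero_ne_one h
  · by_contra hcon
    push Not at hcon
    have : AA O D b = 0 := by
      unfold AA
      apply Finset.sum_eq_zero
      intro θ hθ
      rw [hcon θ (Finset.mem_filter.mp hθ).2, mul_zero]
    rw [this, zero_mul] at h
    exact zero_ne_one h

end Pool.Agent.H254R3.IN
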