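import Pool.Agent.H254R3.IN.Orbit

set_option linter.style.haveILetI false
set_option linter.unusedSectionVars false

open scoped BigOperators Classical
open Pool.Agent.Helper884

noncomputable section

namespace Pool.Agent.H254R3.IN

variable {N : Type} [Group N] [Fintype N]

/-- `p`-regular elements centralising `D` -/
def Sp (p : ℕ) (D : Subgroup N) : Set N :=
  {s | ¬ p ∣ orderOf s ∧ s ∈ Subgroup.centralizer (D : Set N)}

/-- `|C_N(x)| / |D|` -/
def kk (D : Subgroup N) (x : N) : ℕ :=
  Nat.card (Subgroup.centralizer ({x} : Set N)) / Nat.card D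

/-- the sum `∑_K (|C(x_K)|/|D|) λ(K) λ(K⁻¹)` over the classes of `p`-regular elements
centralising (a conjugate of) `D` -/
def cc (O : ValuationSubring ℂ) (p : ℕ) (D : Subgroup N) (χ : N → ℂ) : RF O :=
  ∑ K ∈ Finset.univ.filter (fun K : ConjClasses N => ∃ s ∈ Sp p D, IsConj (rep K) s),
    (kk D (rep K) : RF O) * (red O (omega χ (rep K)) * red O (omega χ (rep K)⁻¹))

lemma le_centralizer {D : Subgroup N} {x : N} (hx : x ∈ Subgroup.centralizer (D : Set N)) :
    D ≤ Subgroup.centralizer ({x} : Set N) := by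
  intro d hd
  rw [Subgroup.mem_centralizer_iff]
  intro y hy
  rw [Set.mem_singleton_iff.mp hy]
  exact (Subgroup.mem_centralizer_iff.mp hx d hd).symm

lemma kk_mul {D : Subgroup N} {x : N} (hx : x ∈ Subgroup.centralizer (D : Set N)) :
    kk D x * Nat.card D = Nat.card (Subgroup.centralizer ({x} : Set N)) :=
  Nat.div_mul_cancel (Subgroup.card_dvd_of_le (le_centralizer hx))

lemma kk_congr (D : Subgroup N) {x y : N} (h : IsConj x y) : kk D x = kk D y := by
  unfold kk
  rw [card_centralizer_congr h]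

/-- `u_χ = χ(1)|D|/|N|` -/
def uu (D : Subgroup N) (χ : N → ℂ) : ℂ := χ 1 * Nat.card D / Nat.card N

lemma val_eq_kk {D : Subgroup N} {χ : N → ℂ} (hχ : IsIrr χ) {x y : N} (hxy : IsConj x y)
    (hx : y ∈ Subgroup.centralizer (D : Set N)) :
    χ x = omega χ x * uu D χ * kk D x := by
  have h1 := hχ.val_eq x
  have h2 := kk_mul hx
  rw [← kk_congr D hxy, ← card_centralizer_congr hxy] at h2
  have h3 : (Nat.card (Subgroup.centralizer ({x} : Set N)) : ℂ) = kk D x * Nat.card D := by
    exact_mod_cast h2.symm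
  rw [h3] at h1
  have h4 : (Nat.card N : ℂ) ≠ 0 := by exact_mod_cast Nat.card_pos.ne'
  conv_lhs => rw [h1]
  unfold uu
  field_simp

section normal

variable {O : ValuationSubring ℂ} {p : ℕ} [hp : Fact p.Prime] (hpO : (p : ℂ) ∈ O.nonunits)
  {D : Subgroup N} [hDn : D.Normal] (hD : IsPGroup p D)

lemma conj_trick {Q : Type} [AddCommGroup Q] [Module (RF O) Q] (τ : N →* Module.End (RF O) Q)
    (w : Q) (hw : ∀ d ∈ D, τ d w = w) (d g : N) (hd : d ∈ D) : τ (d * g * d⁻¹) w = τ g w := by
  have h1 : d * g * d⁻¹ = g * (g⁻¹ * d * g) * d⁻¹ := by group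
  rw [h1, map_mul, map_mul, Module.End.mul_apply, Module.End.mul_apply, hw d⁻¹ (D.inv_mem hd)]
  congr 1
  apply hw
  have := hDn.conj_mem d hd g⁻¹
  simpa using this

lemma coset_trick {Q : Type} [AddCommGroup Q] [Module (RF O) Q] (τ : N →* Module.End (RF O) Q)
    (w : Q) (hw : ∀ d ∈ D, τ d w = w) (g h : N) (hd : g⁻¹ * h ∈ D) : τ h w = τ g w := by
  have h1 : h = g * (g⁻¹ * h) := by group
  rw [h1, map_mul, Module.End.mul_apply, hw _ hd]

include hpO hD

/-- sum of conjugation invariant functions -/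
lemma sum_fixed_conj {F : Type} [AddCommGroup F] [Module (RF O) F] (f : N → F)
    (hf : ∀ d ∈ D, ∀ x, f (d * x * d⁻¹) = f x) :
    ∑ x, f x = ∑ x ∈ Finset.univ.filter (fun x => x ∈ Subgroup.centralizer (D : Set N)), f x := by
  haveI := charP_RF hpO
  letI : MulAction D N := MulAction.compHom N ((MulAut.conj : N →* MulAut N).comp D.subtype)
  have h1 := sum_fixed hD (X := N) (F := F)
    (fun a => by rw [← Nat.cast_smul_eq_nsmul (RF O), CharP.cast_eq_zero, zero_smul]) f
    (fun d x => hf d d.2 x)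
  rw [h1]
  apply Finset.sum_congr _ (fun _ _ => rfl)
  ext x
  simp only [Finset.mem_filter, Finset.mem_univ, true_and]
  rw [Subgroup.mem_centralizer_iff]
  constructor
  · intro h d hd
    have h2 : d * x * d⁻¹ = x := h ⟨d, hd⟩
    have h3 := congrArg (· * d) h2
    simpa [mul_assoc] using h3
  · intro h d
    change (d : N) * x * (d : N)⁻¹ = x
    rw [h d d.2]
    group

/-- central characters vanish on classes outside `C_N(D)` -/
theorem lam_zero {χ : N → ℂ} (hχ : IsIrr χ) {x : N}
    (hx : x ∉ Subgroup.centralizer (D : Set N)) : red O (omega χ x) = 0 := by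
  obtain ⟨Q, _, _, τ, w, hw0, hw, hf⟩ := exists_mod O hpO D hD χ hχ
  obtain ⟨h1, h2⟩ := hf (ind x) (ind_mem O x) (ind_cl x)
  have h3 : (∑ g, ind x g * χ g) / χ 1 = omega χ x := Om_ind hχ x
  rw [h3] at h2
  rw [sum_fixed_conj hpO hD (fun g => red O (ind x g) • τ g w) (by
    intro d hd g
    change red O (ind x (d * g * d⁻¹)) • τ (d * g * d⁻¹) w = _
    rw [conj_trick τ w hw d g hd, ind_cl x g d])] at h2
  rw [Finset.sum_eq_zero] at h2
  · rcases smul_eq_zero.mp h2.symm with h4 | h4
    · exact h4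
    · exact absurd h4 hw0
  · intro g hg
    have hg' := (Finset.mem_filter.mp hg).2
    have h5 : ¬ IsConj x g := by
      intro hc
      apply hx
      obtain ⟨c, hc⟩ := isConj_iff.mp hc.symm
      rw [← hc, Subgroup.mem_centralizer_iff]
      intro d hd
      have h6 := Subgroup.mem_centralizer_iff.mp hg' (c⁻¹ * d * c) (by
        have := hDn.conj_mem d hd c⁻¹
        simpa using this)
      have h7 : d * (c * g * c⁻¹) = c * ((c⁻¹ * d * c) * g) * c⁻¹ := by group
      rw [h7, h6]
      group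
    rw [ind, if_neg h5, red_zero, zero_smul]

end normal

end Pool.Agent.H254R3.IN
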