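import Pool.Agent.H254R3.IN.Lattice
import Pool.Agent.H254R3.IN.Idem

set_option linter.style.haveILetI false
set_option linter.unusedSectionVars false

open scoped BigOperators Classical

noncomputable section

namespace Pool.Agent.H254R3.IN

/-- a sum of an invariant function over a set acted on by a `p`-group -/
lemma sum_fixed {p : ℕ} [hp : Fact p.Prime] {D X : Type} [Group D] (hD : IsPGroup p D)
    [MulAction D X] [Fintype X] {F : Type} [AddCommGroup F] (hF : ∀ a : F, p • a = 0)
    (f : X → F) (hf : ∀ (d : D) (x : X), f (d • x) = f x) :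
    ∑ x, f x = ∑ x ∈ Finset.univ.filter (fun x => ∀ d : D, d • x = x), f x := by
  have h1 : ∑ x, f x = ∑ q ∈ Finset.univ.image f, ∑ x ∈ Finset.univ.filter (fun x => f x = q), f x :=
    (Finset.sum_fiberwise_of_maps_to (fun x _ => Finset.mem_image_of_mem f (Finset.mem_univ x))
      f).symm
  have h2 : ∑ x ∈ Finset.univ.filter (fun x => ∀ d : D, d • x = x), f x =
      ∑ q ∈ Finset.univ.image f,
        ∑ x ∈ (Finset.univ.filter (fun x => ∀ d : D, d • x = x)).filter (fun x => f x = q), f x :=
    (Finset.sum_fiberwise_of_maps_to (fun x _ => Finset.mem_image_of_mem f (Finset.mem_univ x))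
      f).symm
  rw [h1, h2]
  refine Finset.sum_congr rfl fun q _ => ?_
  rw [Finset.sum_congr rfl (g := fun _ => q) (fun x hx => (Finset.mem_filter.mp hx).2),
    Finset.sum_congr rfl (s₁ := (Finset.univ.filter (fun x => ∀ d : D, d • x = x)).filter
      (fun x => f x = q)) (g := fun _ => q) (fun x hx => (Finset.mem_filter.mp hx).2),
    Finset.sum_const, Finset.sum_const]
  letI : MulAction D {x : X // f x = q} :=
    { smul := fun d x => ⟨d • x.1, by rw [hf, x.2]⟩
      one_smul := fun x => Subtype.ext (one_smul D x.1)
      mul_smul := fun d e x => Subtype.ext (mul_smul d e x.1) }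
  have h3 := hD.card_modEq_card_fixedPoints {x : X // f x = q}
  have h4 : Nat.card {x : X // f x = q} = (Finset.univ.filter (fun x => f x = q)).card := by
    rw [Nat.card_eq_fintype_card, Fintype.card_subtype]
  have h5 : Nat.card (MulAction.fixedPoints D {x : X // f x = q}) =
      ((Finset.univ.filter (fun x => ∀ d : D, d • x = x)).filter (fun x => f x = q)).card := by
    rw [← Fintype.card_coe, ← Nat.card_eq_fintype_card]
    refine Nat.card_congr
      { toFun := fun x => ⟨x.1.1, by
          simp only [Finset.mem_filter, Finset.mem_univ, true_and]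
          exact ⟨fun d => congrArg Subtype.val (x.2 d), x.1.2⟩⟩
        invFun := fun x => ⟨⟨x.1, (Finset.mem_filter.mp x.2).2⟩, fun d => Subtype.ext
          ((Finset.mem_filter.mp (Finset.mem_filter.mp x.2).1).2 d)⟩
        left_inv := fun x => rfl
        right_inv := fun x => rfl }
  rw [h4, h5] at h3
  have key : ∀ {a b : ℕ}, a ≡ b [MOD p] → a ≤ b → a • q = b • q := by
    intro a b h hab
    obtain ⟨c, hc⟩ := (Nat.modEq_iff_dvd' hab).mp h
    have : b = a + p * c := by omega
    rw [this, add_smul, mul_comm, mul_smul, hF, smul_zero, add_zero]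
  rcases le_total (Finset.univ.filter (fun x => f x = q)).card
    ((Finset.univ.filter (fun x => ∀ d : D, d • x = x)).filter (fun x => f x = q)).card with h | h
  · exact key h3 h
  · exact (key h3.symm h).symm

/-- representative of a conjugacy class -/
def rep {G : Type} [Group G] (K : ConjClasses G) : G := Quotient.out K

lemma mk_rep {G : Type} [Group G] (K : ConjClasses G) : ConjClasses.mk (rep K) = K :=
  Quotient.out_eq K

lemma rep_mk {G : Type} [Group G] (g : G) : IsConj (rep (ConjClasses.mk g)) g :=
  ConjClasses.mk_eq_mk_iff_isConj.mp (mk_rep _)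

lemma mk_eq_iff {G : Type} [Group G] (g : G) (K : ConjClasses G) :
    ConjClasses.mk g = K ↔ IsConj (rep K) g := by
  conv_lhs => rw [← mk_rep K]
  rw [ConjClasses.mk_eq_mk_iff_isConj, isConj_comm]

/-- sum by conjugacy classes -/
lemma sum_classes {G : Type} [Group G] [Fintype G] {A : Type*} [AddCommMonoid A] (f : G → A) :
    ∑ g, f g = ∑ K : ConjClasses G, ∑ g ∈ Finset.univ.filter (fun g => IsConj (rep K) g), f g := by
  rw [← Finset.sum_fiberwise Finset.univ ConjClasses.mk f]
  refine Finset.sum_congr rfl fun K _ => ?_
  simp only [mk_eq_iff]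

end Pool.Agent.H254R3.IN
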