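import Pool.Agent.H254R3.IN.Signed
import Pool.Agent.H254R3.IN.Orbit

set_option linter.style.haveILetI false
set_option linter.unusedSectionVars false

open scoped BigOperators Classical
open Pool.Agent.Helper884 Representation

noncomputable section

namespace Pool.Agent.H254R3.IN

variable {G H : Type} [Group G] [Fintype G] [Group H] [Fintype H]

lemma cardG_ne (G : Type) [Group G] [Fintype G] : (Nat.card G : ℂ) ≠ 0 := by
  exact_mod_cast Nat.card_pos.ne'

lemma orth_sum {χ ψ : G → ℂ} (h1 : IsIrr χ) (h2 : IsIrr ψ) :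
    ∑ g : G, χ g * ψ g⁻¹ = if χ = ψ then (Nat.card G : ℂ) else 0 := by
  have h := irr_orth h1 h2
  rw [inv_mul_eq_iff_eq_mul₀ (cardG_ne G)] at h
  rw [h]
  split_ifs
  · rw [mul_one]
  · rw [mul_zero]

/-- reduction of the scalar attached to an integral class function -/
lemma red_Om {O : ValuationSubring ℂ} {χ : G → ℂ} (hχ : IsIrr χ) {f : G → ℂ} (hf : IsCl f)
    (hfO : ∀ g, f g ∈ O) : Om f χ ∈ O ∧
      red O (Om f χ) = ∑ K : ConjClasses G, red O (f (rep K)) * red O (omega χ (rep K)) := by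
  have h1 : Om f χ = ∑ K : ConjClasses G, f (rep K) * omega χ (rep K) := by
    unfold Om
    rw [sum_classes, Finset.sum_div]
    refine Finset.sum_congr rfl fun K _ => ?_
    have h2 : ∀ g ∈ Finset.univ.filter (fun g => IsConj (rep K) g),
        f g * χ g = f (rep K) * χ (rep K) := by
      intro g hg
      have hc := (Finset.mem_filter.mp hg).2
      rw [hf.isConj hc, hχ.isConj hc]
    rw [Finset.sum_congr rfl h2, Finset.sum_const, nsmul_eq_mul]
    have h3 : (Finset.univ.filter (fun g => IsConj (rep K) g)).card =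
        Nat.card {y : G // IsConj (rep K) y} := by
      rw [Nat.card_eq_fintype_card, Fintype.card_subtype]
    rw [h3]
    unfold omega
    ring
  have h2 : ∀ K ∈ (Finset.univ : Finset (ConjClasses G)), f (rep K) * omega χ (rep K) ∈ O :=
    fun K _ => O.mul_mem _ _ (hfO _) (hχ.omega_mem O _)
  constructor
  · rw [h1]
    exact sum_mem h2
  · rw [h1, red_sum _ _ h2]
    refine Finset.sum_congr rfl fun K _ => ?_
    rw [red_mul (hfO _) (hχ.omega_mem O _)]

lemma card_cent_one (G : Type) [Group G] [Fintype G] :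
    Nat.card (Subgroup.centralizer ({1} : Set G)) = Nat.card G := by
  have : Subgroup.centralizer ({1} : Set G) = ⊤ := by
    ext x
    simp [Subgroup.mem_centralizer_iff]
  rw [this]
  exact Nat.card_congr (Subgroup.topEquiv).toEquiv

section signed

variable {B : Set (G → ℂ)} {b : Set (H → ℂ)} (hB : ∀ χ ∈ B, IsIrr χ)
    (hb : ∀ θ ∈ b, IsIrr θ) (I : ZIrr B ≃+ ZIrr b)
    (F : (G → ℂ) → (H → ℂ)) (E : (G → ℂ) → ℂ)
    (hFE : ∀ χ ∈ B, F χ ∈ b ∧ (E χ = 1 ∨ E χ = -1))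
    (hinj : ∀ χ ∈ B, ∀ ψ ∈ B, F χ = F ψ → χ = ψ)
    (hmu : ∀ (g : G) (h : H), mu I g h =
        ∑ χ ∈ (IC.Irr G).filter (· ∈ B), χ g * (E χ * F χ h⁻¹))

include hB hb hFE hinj hmu

lemma orth1 {χ : G → ℂ} (hχ : χ ∈ B) (g : G) :
    ∑ h : H, mu I g h * F χ h = Nat.card H * (E χ * χ g) := by
  simp only [hmu, Finset.sum_mul]
  rw [Finset.sum_comm]
  rw [Finset.sum_eq_single χ]
  · have h1 : ∀ h : H, χ g * (E χ * F χ h⁻¹) * F χ h = χ g * E χ * (F χ h * F χ h⁻¹) := by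
      intro h; ring
    rw [Finset.sum_congr rfl (fun h _ => h1 h), ← Finset.mul_sum,
      orth_sum (hb _ (hFE χ hχ).1) (hb _ (hFE χ hχ).1), if_pos rfl]
    ring
  · intro ψ hψ hne
    have hψB := (Finset.mem_filter.mp hψ).2
    have h1 : ∀ h : H, ψ g * (E ψ * F ψ h⁻¹) * F χ h = ψ g * E ψ * (F χ h * F ψ h⁻¹) := by
      intro h; ring
    rw [Finset.sum_congr rfl (fun h _ => h1 h), ← Finset.mul_sum,
      orth_sum (hb _ (hFE χ hχ).1) (hb _ (hFE ψ hψB).1), if_neg (fun h => hne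
        (hinj χ hχ ψ hψB h).symm), mul_zero]
  · intro h
    exact absurd (Finset.mem_filter.mpr ⟨mem_Irr.mpr (hB χ hχ), hχ⟩) h

lemma orth2 {χ : G → ℂ} (hχ : χ ∈ B) (h : H) :
    ∑ g : G, mu I g h * χ g⁻¹ = Nat.card G * (E χ * F χ h⁻¹) := by
  simp only [hmu, Finset.sum_mul]
  rw [Finset.sum_comm]
  rw [Finset.sum_eq_single χ]
  · have h1 : ∀ g : G, χ g * (E χ * F χ h⁻¹) * χ g⁻¹ = E χ * F χ h⁻¹ * (χ g * χ g⁻¹) := by
      intro g; ring
    rw [Finset.sum_congr rfl (fun g _ => h1 g), ← Finset.mul_sum,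
      orth_sum (hB _ hχ) (hB _ hχ), if_pos rfl]
    ring
  · intro ψ hψ hne
    have hψB := (Finset.mem_filter.mp hψ).2
    have h1 : ∀ g : G, ψ g * (E ψ * F ψ h⁻¹) * χ g⁻¹ = E ψ * F ψ h⁻¹ * (ψ g * χ g⁻¹) := by
      intro g; ring
    rw [Finset.sum_congr rfl (fun g _ => h1 g), ← Finset.mul_sum,
      orth_sum (hB _ hψB) (hB _ hχ), if_neg hne, mul_zero]
  · intro h
    exact absurd (Finset.mem_filter.mpr ⟨mem_Irr.mpr (hB χ hχ), hχ⟩) h

/-- the truncated norms agree -/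
lemma trunc {p : ℕ} (hsep : ∀ (g : G) (h : H), mu I g h ≠ 0 → (p ∣ orderOf g ↔ p ∣ orderOf h))
    {χ : G → ℂ} (hχ : χ ∈ B) :
    (Nat.card H : ℂ) * ∑ g ∈ Finset.univ.filter (fun g : G => ¬ p ∣ orderOf g), χ g * χ g⁻¹ =
    (Nat.card G : ℂ) * ∑ h ∈ Finset.univ.filter (fun h : H => ¬ p ∣ orderOf h),
      F χ h * F χ h⁻¹ := by
  have hE : E χ ≠ 0 := by
    rcases (hFE χ hχ).2 with h | h <;> rw [h] <;> norm_num
  have h1 : ∑ g ∈ Finset.univ.filter (fun g : G => ¬ p ∣ orderOf g),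
      ∑ h : H, mu I g h * F χ h * χ g⁻¹ =
      E χ * ((Nat.card H : ℂ) * ∑ g ∈ Finset.univ.filter (fun g : G => ¬ p ∣ orderOf g),
        χ g * χ g⁻¹) := by
    rw [Finset.mul_sum, Finset.mul_sum]
    refine Finset.sum_congr rfl fun g _ => ?_
    rw [← Finset.sum_mul, orth1 hB hb I F E hFE hinj hmu hχ]
    ring
  have h2 : ∑ h ∈ Finset.univ.filter (fun h : H => ¬ p ∣ orderOf h),
      ∑ g : G, mu I g h * F χ h * χ g⁻¹ =
      E χ * ((Nat.card G : ℂ) * ∑ h ∈ Finset.univ.filter (fun h : H => ¬ p ∣ orderOf h),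
        F χ h * F χ h⁻¹) := by
    rw [Finset.mul_sum, Finset.mul_sum]
    refine Finset.sum_congr rfl fun h _ => ?_
    have h3 : ∀ g : G, mu I g h * F χ h * χ g⁻¹ = F χ h * (mu I g h * χ g⁻¹) := by
      intro g; ring
    rw [Finset.sum_congr rfl (fun g _ => h3 g), ← Finset.mul_sum,
      orth2 hB hb I F E hFE hinj hmu hχ]
    ring
  have h3 : ∑ g ∈ Finset.univ.filter (fun g : G => ¬ p ∣ orderOf g),
      ∑ h : H, mu I g h * F χ h * χ g⁻¹ = ∑ h ∈ Finset.univ.filter (fun h : H => ¬ p ∣ orderOf h),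
      ∑ g : G, mu I g h * F χ h * χ g⁻¹ := by
    rw [Finset.sum_comm, Finset.sum_filter]
    refine Finset.sum_congr rfl fun h _ => ?_
    by_cases hh : p ∣ orderOf h
    · rw [if_neg (not_not.mpr hh)]
      apply Finset.sum_eq_zero
      intro g hg
      have hg' := (Finset.mem_filter.mp hg).2
      by_cases h0 : mu I g h = 0
      · rw [h0, zero_mul, zero_mul]
      · exact absurd ((hsep g h h0).mpr hh) hg'
    · rw [if_pos hh]
      apply Finset.sum_subset (Finset.filter_subset _ _)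
      intro g _ hg
      have hg' : p ∣ orderOf g := by
        by_contra hcon
        exact hg (Finset.mem_filter.mpr ⟨Finset.mem_univ _, hcon⟩)
      by_cases h0 : mu I g h = 0
      · rw [h0, zero_mul, zero_mul]
      · exact absurd ((hsep g h h0).mp hg') hh
  rw [h1, h2] at h3
  exact mul_left_cancel₀ hE h3

/-- the ratio `κ_χ` -/
def kap (F : (G → ℂ) → (H → ℂ)) (E : (G → ℂ) → ℂ) (χ : G → ℂ) : ℂ :=
  E χ * F χ 1 * Nat.card G / (Nat.card H * χ 1)

lemma kap_facts {O : ValuationSubring ℂ}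
    (hl : ∀ (g : G) (h : H), mu I g h / (Nat.card (Subgroup.centralizer ({g} : Set G)) : ℂ) ∈ O)
    (hr : ∀ (g : G) (h : H), mu I g h / (Nat.card (Subgroup.centralizer ({h} : Set H)) : ℂ) ∈ O)
    (hblock : ∀ χ ∈ B, ∀ ψ ∈ B, ∀ x : G, red O (omega χ x) = red O (omega ψ x)) :
    (∀ χ ∈ B, kap F E χ ∈ O ∧ red O (kap F E χ) ≠ 0) ∧
      ∀ χ ∈ B, ∀ ψ ∈ B, red O (kap F E χ) = red O (kap F E ψ) := by
  set f : G → ℂ := fun g => mu I g⁻¹ 1 / (Nat.card H : ℂ) with hf
  have hfO : ∀ g, f g ∈ O := by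
    intro g
    have := hr g⁻¹ 1
    rw [card_cent_one] at this
    exact this
  have hfcl : IsCl f := by
    intro g y
    simp only [hf, hmu]
    congr 1
    refine Finset.sum_congr rfl fun χ hχ => ?_
    have hirr : IsIrr χ := hB χ (Finset.mem_filter.mp hχ).2
    have e : (y * g * y⁻¹)⁻¹ = y * g⁻¹ * y⁻¹ := by group
    rw [e, hirr.conj]
  have hk : ∀ χ ∈ B, kap F E χ = Om f χ := by
    intro χ hχ
    have h1 := orth2 hB hb I F E hFE hinj hmu hχ 1
    have h2 : ∑ g, f g * χ g = (∑ g : G, mu I g 1 * χ g⁻¹) / Nat.card H := by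
      rw [Finset.sum_div]
      refine Fintype.sum_equiv (Equiv.inv G) _ _ fun g => ?_
      simp only [hf, Equiv.inv_apply, inv_inv]
      ring
    unfold kap Om
    rw [h2, h1, inv_one]
    have h3 := cardG_ne H
    have h4 := (hB χ hχ).one_ne
    field_simp
  set f2 : H → ℂ := fun h => mu I 1 h / (Nat.card G : ℂ) with hf2
  have hf2O : ∀ h, f2 h ∈ O := by
    intro h
    have := hl 1 h
    rw [card_cent_one] at this
    exact this
  have hf2cl : IsCl f2 := by
    intro g y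
    simp only [hf2, hmu]
    congr 1
    refine Finset.sum_congr rfl fun χ hχ => ?_
    have hirr : IsIrr (F χ) := hb _ (hFE χ (Finset.mem_filter.mp hχ).2).1
    have e : (y * g * y⁻¹)⁻¹ = y * g⁻¹ * y⁻¹ := by group
    rw [e, hirr.conj]
  have hk2 : ∀ χ ∈ B, kap F E χ * Om f2 (F χ) = 1 := by
    intro χ hχ
    have h1 := orth1 hB hb I F E hFE hinj hmu hχ 1
    have h2 : ∑ h, f2 h * F χ h = (∑ h : H, mu I 1 h * F χ h) / Nat.card G := by
      rw [Finset.sum_div]
      refine Finset.sum_congr rfl fun h _ => ?_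
      simp only [hf2]
      ring
    unfold kap Om
    rw [h2, h1]
    have h3 := cardG_ne H
    have h4 := (hB χ hχ).one_ne
    have h5 := cardG_ne G
    have h6 := (hb _ (hFE χ hχ).1).one_ne
    have h7 : E χ * E χ = 1 := by
      rcases (hFE χ hχ).2 with h | h <;> rw [h] <;> ring
    field_simp
    linear_combination h7
  constructor
  · intro χ hχ
    have h1 := (red_Om (hB χ hχ) hfcl hfO).1
    have h2 := (red_Om (hb _ (hFE χ hχ).1) hf2cl hf2O).1
    rw [hk χ hχ]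
    refine ⟨h1, ?_⟩
    apply red_ne_zero_of_mul h1 h2
    rw [← hk χ hχ]
    exact hk2 χ hχ
  · intro χ hχ ψ hψ
    rw [hk χ hχ, hk ψ hψ, (red_Om (hB χ hχ) hfcl hfO).2, (red_Om (hB ψ hψ) hfcl hfO).2]
    refine Finset.sum_congr rfl fun K _ => ?_
    rw [hblock χ hχ ψ hψ]

end signed

end Pool.Agent.H254R3.IN
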