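import Pool.Agent.H254R3.IN.Idem

set_option linter.style.haveILetI false
set_option linter.unusedSectionVars false

open scoped BigOperators Classical
open Pool.Agent.Helper884 Representation

noncomputable section

namespace Pool.Agent.H254R3.IN

variable {G H : Type} [Group G] [Fintype G] [Group H] [Fintype H]

lemma closure_rep {b : Set (H → ℂ)} (hb : ∀ θ ∈ b, IsIrr θ) {f : H → ℂ}
    (hf : f ∈ AddSubgroup.closure b) :
    ∃ n : (H → ℂ) → ℤ, (∀ θ, θ ∉ b → n θ = 0) ∧ f = ∑ θ ∈ IC.Irr H, (n θ : ℂ) • θ := by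
  induction hf using AddSubgroup.closure_induction with
  | mem x hx =>
    refine ⟨fun θ => if θ = x then 1 else 0, fun θ hθ => if_neg (by
      rintro rfl
      exact hθ hx), ?_⟩
    rw [Finset.sum_eq_single x]
    · simp
    · intro y _ hy
      simp [hy]
    · intro h
      exact absurd (mem_Irr.mpr (hb x hx)) h
  | zero => exact ⟨fun _ => 0, fun _ _ => rfl, by simp⟩
  | add x y _ _ hx hy =>
    obtain ⟨n, hn1, hn2⟩ := hx
    obtain ⟨m, hm1, hm2⟩ := hy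
    refine ⟨fun θ => n θ + m θ, fun θ hθ => by simp only [hn1 θ hθ, hm1 θ hθ, add_zero], ?_⟩
    rw [hn2, hm2, ← Finset.sum_add_distrib]
    refine Finset.sum_congr rfl fun θ _ => ?_
    push_cast
    rw [add_smul]
  | neg x _ hx =>
    obtain ⟨n, hn1, hn2⟩ := hx
    refine ⟨fun θ => - n θ, fun θ hθ => by simp only [hn1 θ hθ, neg_zero], ?_⟩
    rw [hn2, ← Finset.sum_neg_distrib]
    refine Finset.sum_congr rfl fun θ _ => ?_
    push_cast
    rw [neg_smul]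

lemma ip_eq (f h : H → ℂ) : ip f h = IC.B f h := by
  unfold ip IC.B
  rw [finsum_eq_sum_of_fintype]

lemma norm_one {b : Set (H → ℂ)} (hb : ∀ θ ∈ b, IsIrr θ) {f : H → ℂ}
    (hf : f ∈ AddSubgroup.closure b) (h1 : ip f f = 1) :
    ∃ θ ∈ b, ∃ e : ℤ, (e = 1 ∨ e = -1) ∧ f = (e : ℂ) • θ := by
  obtain ⟨n, hn1, hn2⟩ := closure_rep hb hf
  have h2 : ∀ θ, IsIrr θ → IC.B f θ = n θ := by
    intro θ hθ
    rw [hn2, IC.B_sum_left, Finset.sum_eq_single θ]
    · rw [IC.B_smul_left, IC.B_irr hθ hθ, if_pos rfl, mul_one]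
    · intro ψ hψ hne
      rw [IC.B_smul_left, IC.B_irr (IC.mem_Irr.mp hψ) hθ, if_neg hne, mul_zero]
    · intro h
      exact absurd (IC.mem_Irr.mpr hθ) h
  have h3 : ip f f = ∑ θ ∈ IC.Irr H, (n θ : ℂ) * n θ := by
    have h4 : ip f f = IC.B f f := ip_eq f f
    rw [h4]
    conv_lhs => rw [IC.B_comm]
    conv_lhs => arg 1; rw [hn2]
    rw [IC.B_sum_left]
    refine Finset.sum_congr rfl fun θ hθ => ?_
    rw [IC.B_smul_left, IC.B_comm, h2 θ (IC.mem_Irr.mp hθ)]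
  rw [h1] at h3
  have h5 : ∑ θ ∈ IC.Irr H, n θ * n θ = 1 := by
    have : ((∑ θ ∈ IC.Irr H, n θ * n θ : ℤ) : ℂ) = ((1 : ℤ) : ℂ) := by
      push_cast
      exact h3.symm
    exact_mod_cast this
  have h6 : ∃ θ ∈ IC.Irr H, n θ ≠ 0 := by
    by_contra hcon
    push Not at hcon
    rw [Finset.sum_eq_zero (fun θ hθ => by rw [hcon θ hθ, mul_zero])] at h5
    exact absurd h5 (by norm_num)
  obtain ⟨θ, hθ, hne⟩ := h6
  have h7 : n θ * n θ + ∑ ψ ∈ (IC.Irr H).erase θ, n ψ * n ψ = 1 := by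
    rw [← h5]
    exact Finset.add_sum_erase (IC.Irr H) (fun ψ => n ψ * n ψ) hθ
  have h8 : 0 < n θ * n θ := mul_self_pos.mpr hne
  have h9 : ∀ ψ ∈ (IC.Irr H).erase θ, 0 ≤ n ψ * n ψ := fun ψ _ => mul_self_nonneg _
  have h10 : 0 ≤ ∑ ψ ∈ (IC.Irr H).erase θ, n ψ * n ψ := Finset.sum_nonneg h9
  have h11 : n θ * n θ = 1 := by omega
  have h12 : ∑ ψ ∈ (IC.Irr H).erase θ, n ψ * n ψ = 0 := by omega
  have h13 := (Finset.sum_eq_zero_iff_of_nonneg h9).mp h12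
  refine ⟨θ, ?_, n θ, ?_, ?_⟩
  · by_contra hcon
    exact hne (hn1 θ hcon)
  · exact mul_self_eq_one_iff.mp h11
  · rw [hn2]
    apply Finset.sum_eq_single θ
    · intro ψ hψ hψne
      have := h13 ψ (Finset.mem_erase.mpr ⟨hψne, hψ⟩)
      rw [mul_self_eq_zero.mp this]
      simp
    · intro h
      exact absurd hθ h

lemma ip_irr {χ : G → ℂ} (h : IsIrr χ) : ip χ χ = 1 := by
  have h4 : ip χ χ = IC.B χ χ := ip_eq χ χ
  rw [h4, IC.B_irr h h, if_pos rfl]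

/-- an isometry is a signed bijection -/
theorem exists_signed {B : Set (G → ℂ)} {b : Set (H → ℂ)} (hB : ∀ χ ∈ B, IsIrr χ)
    (hb : ∀ θ ∈ b, IsIrr θ) (I : ZIrr B ≃+ ZIrr b)
    (hI : ∀ f h : ZIrr B, ip (I f : H → ℂ) (I h : H → ℂ) = ip (f : G → ℂ) (h : G → ℂ)) :
    ∃ (F : (G → ℂ) → (H → ℂ)) (E : (G → ℂ) → ℂ),
      (∀ χ ∈ B, F χ ∈ b ∧ (E χ = 1 ∨ E χ = -1)) ∧
      (∀ χ ∈ B, ∀ ψ ∈ B, F χ = F ψ → χ = ψ) ∧ (∀ θ ∈ b, ∃ χ ∈ B, F χ = θ) ∧
      ∀ (g : G) (h : H), mu I g h =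
        ∑ χ ∈ (IC.Irr G).filter (· ∈ B), χ g * (E χ * F χ h⁻¹) := by
  have key : ∀ χ : G → ℂ, ∀ hχ : χ ∈ B, ∃ θ ∈ b, ∃ e : ℤ, (e = 1 ∨ e = -1) ∧
      (I ⟨χ, AddSubgroup.subset_closure hχ⟩ : H → ℂ) = (e : ℂ) • θ := by
    intro χ hχ
    apply norm_one hb (I ⟨χ, AddSubgroup.subset_closure hχ⟩).2
    rw [hI]
    exact ip_irr (hB χ hχ)
  choose F hF E hE hFE using key
  have keysymm : ∀ θ : H → ℂ, ∀ hθ : θ ∈ b, ∃ χ ∈ B, ∃ e : ℤ, (e = 1 ∨ e = -1) ∧
      (I.symm ⟨θ, AddSubgroup.subset_closure hθ⟩ : G → ℂ) = (e : ℂ) • χ := by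
    intro θ hθ
    apply norm_one hB (I.symm ⟨θ, AddSubgroup.subset_closure hθ⟩).2
    rw [← hI, AddEquiv.apply_symm_apply]
    exact ip_irr (hb θ hθ)
  -- irreducible characters differing by a sign are equal
  have sgn : ∀ {K : Type} [Group K] [Fintype K] {χ ψ : K → ℂ} (_ : IsIrr χ) (_ : IsIrr ψ)
      {e : ℤ} (_ : e = 1 ∨ e = -1) (_ : χ = (e : ℂ) • ψ), χ = ψ := by
    intro K _ _ χ ψ h1 h2 e he h
    rcases he with rfl | rfl
    · simpa using h
    · exfalso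
      obtain ⟨n, hn, hn'⟩ := h1.deg
      obtain ⟨m, hm, hm'⟩ := h2.deg
      have h3 := congrFun h 1
      rw [← hn', Pi.smul_apply, ← hm', smul_eq_mul] at h3
      have h4 : ((n + m : ℕ) : ℂ) = 0 := by
        push_cast
        rw [h3]
        push_cast
        ring
      have h5 : n + m = 0 := by exact_mod_cast h4
      omega
  have hinj : ∀ χ, ∀ hχ : χ ∈ B, ∀ ψ, ∀ hψ : ψ ∈ B, F χ hχ = F ψ hψ → χ = ψ := by
    intro χ hχ ψ hψ h
    obtain ⟨e, he, heq⟩ : ∃ e : ℤ, (e = 1 ∨ e = -1) ∧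
        (I ⟨χ, AddSubgroup.subset_closure hχ⟩ : H → ℂ) =
        (e : ℂ) • (I ⟨ψ, AddSubgroup.subset_closure hψ⟩ : H → ℂ) := by
      refine ⟨E χ hχ * E ψ hψ, ?_, ?_⟩
      · rcases hE χ hχ with h1 | h1 <;> rcases hE ψ hψ with h2 | h2 <;> rw [h1, h2] <;> simp
      · rw [hFE χ hχ, hFE ψ hψ, h, smul_smul]
        congr 1
        rcases hE ψ hψ with h2 | h2 <;> rw [h2] <;> push_cast <;> ring
    have h3 : I ⟨χ, AddSubgroup.subset_closure hχ⟩ = e • I ⟨ψ, AddSubgroup.subset_closure hψ⟩ := by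
      apply Subtype.ext
      rw [heq]
      rcases he with rfl | rfl
      · simp
      · simp
    rw [← map_zsmul] at h3
    have h4 := I.injective h3
    have h5 := congrArg Subtype.val h4
    apply sgn (hB χ hχ) (hB ψ hψ) he
    have h6 : χ = ((e • ⟨ψ, AddSubgroup.subset_closure hψ⟩ : ZIrr B) : G → ℂ) := h5
    rw [h6]
    rcases he with rfl | rfl
    · simp
    · simp
  refine ⟨fun χ => if h : χ ∈ B then F χ h else 0, fun χ => if h : χ ∈ B then (E χ h : ℂ) else 0,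
    ?_, ?_, ?_, ?_⟩
  · intro χ hχ
    simp only [dif_pos hχ]
    refine ⟨hF χ hχ, ?_⟩
    rcases hE χ hχ with h | h
    · left; rw [h]; simp
    · right; rw [h]; simp
  · intro χ hχ ψ hψ h
    simp only [dif_pos hχ, dif_pos hψ] at h
    exact hinj χ hχ ψ hψ h
  · intro θ hθ
    obtain ⟨χ, hχ, e, he, heq⟩ := keysymm θ hθ
    refine ⟨χ, hχ, ?_⟩
    simp only [dif_pos hχ]
    have h1 : I.symm ⟨θ, AddSubgroup.subset_closure hθ⟩ = e • ⟨χ, AddSubgroup.subset_closure hχ⟩ := by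
      apply Subtype.ext
      rw [heq]
      rcases he with rfl | rfl
      · simp
      · simp
    have h2 : (⟨θ, AddSubgroup.subset_closure hθ⟩ : ZIrr b) =
        e • I ⟨χ, AddSubgroup.subset_closure hχ⟩ := by
      rw [← map_zsmul, ← h1, AddEquiv.apply_symm_apply]
    have h3 := congrArg Subtype.val h2
    have h4 : θ = ((e * E χ hχ : ℤ) : ℂ) • F χ hχ := by
      have h5 : θ = (e : ℂ) • (I ⟨χ, AddSubgroup.subset_closure hχ⟩ : H → ℂ) := by
        rw [show θ = ((⟨θ, AddSubgroup.subset_closure hθ⟩ : ZIrr b) : H → ℂ) from rfl, h3]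
        rcases he with rfl | rfl
        · simp
        · simp
      conv_lhs => rw [h5, hFE χ hχ, smul_smul]
      push_cast
      rfl
    symm
    apply sgn (hb θ hθ) (hb _ (hF χ hχ)) _ h4
    rcases he with h1 | h1 <;> rcases hE χ hχ with h2 | h2 <;> rw [h1, h2] <;> simp
  · intro g h
    unfold mu
    have hfin : Finite B := by
      apply Set.Finite.to_subtype
      apply Set.Finite.subset (IC.Irr G).finite_toSet
      intro χ hχ
      exact IC.mem_Irr.mpr (hB χ hχ)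
    haveI := Fintype.ofFinite B
    rw [finsum_eq_sum_of_fintype]
    rw [Finset.sum_subtype (p := fun χ => χ ∈ B) ((IC.Irr G).filter (· ∈ B)) (by
      intro χ
      rw [Finset.mem_filter, mem_Irr]
      exact ⟨fun h => h.2, fun h => ⟨hB χ h, h⟩⟩)]
    refine Finset.sum_congr rfl fun χ _ => ?_
    simp only [dif_pos χ.2]
    rw [hFE χ.1 χ.2]
    rfl

end Pool.Agent.H254R3.IN
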